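import Pool.Agent.helper9.HLR.Spec
import Pool.Agent.helper9.HQ.DC

set_option autoImplicit false

open scoped Classical

namespace Pool.Agent.helper9.HLR

open Finset
open Pool.Agent.helper65.HC (V IsEig IsTop lam)
open Pool.Agent.helper9.HQ (Fam Dn E N Le Eig lk c DC_fl DC_tot)
open Pool.Agent.helper9.HX (nu ee up s2 Ef Pf)

/-- splitting the coordinates -/
noncomputable def LBP_e (K D : ℕ) : Finset (Fin (K + D)) ≃ Finset (Fin K) × Finset (Fin D) where
  toFun x := (univ.filter fun i => Fin.castAdd D i ∈ x, univ.filter fun j => Fin.natAdd K j ∈ x)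
  invFun p := univ.filter fun k => Fin.addCases (fun i => i ∈ p.1) (fun j => j ∈ p.2) k
  left_inv := by
    intro x
    ext k
    refine Fin.addCases (fun i => ?_) (fun j => ?_) k
    · simp
    · simp
  right_inv := by
    rintro ⟨a, b⟩
    ext k <;> simp

theorem LBP_fst (K D : ℕ) (x : Finset (Fin (K + D))) (i : Fin K) :
    i ∈ (LBP_e K D x).1 ↔ Fin.castAdd D i ∈ x := by
  unfold LBP_e
  simp

theorem LBP_snd (K D : ℕ) (x : Finset (Fin (K + D))) (j : Fin D) :
    j ∈ (LBP_e K D x).2 ↔ Fin.natAdd K j ∈ x := by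
  unfold LBP_e
  simp

theorem LBP_memfl {d : ℕ} (i j : Fin d) (s : Finset (Fin d)) :
    j ∈ DC_fl i s ↔ (if j = i then j ∉ s else j ∈ s) := by
  by_cases h : j = i
  · rw [if_pos h, h, HQ.DC_mem_fl_self]
  · rw [if_neg h, HQ.DC_mem_fl i j s h]

theorem LBP_fl1 (K D : ℕ) (x : Finset (Fin (K + D))) (i : Fin K) :
    LBP_e K D (DC_fl (Fin.castAdd D i) x) = (DC_fl i (LBP_e K D x).1, (LBP_e K D x).2) := by
  refine Prod.ext ?_ ?_
  · ext k
    rw [LBP_fst, LBP_memfl, LBP_memfl, LBP_fst]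
    by_cases h : k = i
    · rw [if_pos h, if_pos (by rw [h])]
    · rw [if_neg h, if_neg (fun h2 => h ((Fin.castAdd_injective K D) h2))]
  · ext k
    rw [LBP_snd, LBP_memfl, LBP_snd, if_neg]
    intro h
    have := congrArg Fin.val h
    simp at this
    omega

theorem LBP_fl2 (K D : ℕ) (x : Finset (Fin (K + D))) (j : Fin D) :
    LBP_e K D (DC_fl (Fin.natAdd K j) x) = ((LBP_e K D x).1, DC_fl j (LBP_e K D x).2) := by
  refine Prod.ext ?_ ?_
  · ext k
    rw [LBP_fst, LBP_memfl, LBP_fst, if_neg]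
    intro h
    have := congrArg Fin.val h
    simp at this
    omega
  · ext k
    rw [LBP_snd, LBP_memfl, LBP_memfl, LBP_snd]
    by_cases h : k = j
    · rw [if_pos h, if_pos (by rw [h])]
    · rw [if_neg h, if_neg (fun h2 => h ((Fin.natAdd_injective D K) h2))]

theorem LBP_sum (K D : ℕ) (F : Finset (Fin K) → Finset (Fin D) → ℝ) :
    ∑ x : Finset (Fin (K + D)), F (LBP_e K D x).1 (LBP_e K D x).2 = ∑ a, ∑ b, F a b := by
  have h1 := Equiv.sum_comp (LBP_e K D) (fun p => F p.1 p.2)
  rw [Fintype.sum_prod_type] at h1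
  exact h1

theorem LBP_prod (K D : ℕ) (g : Finset (Fin K) → ℝ) (h : Finset (Fin D) → ℝ) :
    DC_tot (fun x : Finset (Fin (K + D)) => g (LBP_e K D x).1 * h (LBP_e K D x).2) =
      DC_tot g * ∑ b, h b ^ 2 + (∑ a, g a ^ 2) * DC_tot h ∧
    ∑ x : Finset (Fin (K + D)), (g (LBP_e K D x).1 * h (LBP_e K D x).2) ^ 2 =
      (∑ a, g a ^ 2) * ∑ b, h b ^ 2 := by
  constructor
  · unfold DC_tot
    rw [Fin.sum_univ_add]
    congr 1
    · rw [Finset.sum_mul]
      refine Finset.sum_congr rfl fun i _ => ?_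
      have h1 : ∑ x : Finset (Fin (K + D)), g (LBP_e K D x).1 * h (LBP_e K D x).2 *
          (g (LBP_e K D (DC_fl (Fin.castAdd D i) x)).1 * h (LBP_e K D (DC_fl (Fin.castAdd D i) x)).2) =
          ∑ x : Finset (Fin (K + D)), (fun (a : Finset (Fin K)) (b : Finset (Fin D)) =>
            g a * g (DC_fl i a) * h b ^ 2) (LBP_e K D x).1 (LBP_e K D x).2 := by
        refine Finset.sum_congr rfl fun x _ => ?_
        rw [LBP_fl1]
        ring
      refine (h1.trans (LBP_sum K D (fun a b => g a * g (DC_fl i a) * h b ^ 2))).trans ?_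
      rw [Finset.sum_mul]
      refine Finset.sum_congr rfl fun a _ => ?_
      rw [Finset.mul_sum]
    · rw [Finset.mul_sum]
      refine Finset.sum_congr rfl fun j _ => ?_
      have h1 : ∑ x : Finset (Fin (K + D)), g (LBP_e K D x).1 * h (LBP_e K D x).2 *
          (g (LBP_e K D (DC_fl (Fin.natAdd K j) x)).1 * h (LBP_e K D (DC_fl (Fin.natAdd K j) x)).2) =
          ∑ x : Finset (Fin (K + D)), (fun (a : Finset (Fin K)) (b : Finset (Fin D)) =>
            g a ^ 2 * (h b * h (DC_fl j b))) (LBP_e K D x).1 (LBP_e K D x).2 := by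
        refine Finset.sum_congr rfl fun x _ => ?_
        rw [LBP_fl2]
        ring
      refine (h1.trans (LBP_sum K D (fun a b => g a ^ 2 * (h b * h (DC_fl j b))))).trans ?_
      rw [Finset.sum_mul]
      refine Finset.sum_congr rfl fun a _ => ?_
      rw [Finset.mul_sum]
  · have h1 : ∑ x : Finset (Fin (K + D)), (g (LBP_e K D x).1 * h (LBP_e K D x).2) ^ 2 =
        ∑ x : Finset (Fin (K + D)), (fun (a : Finset (Fin K)) (b : Finset (Fin D)) =>
          g a ^ 2 * h b ^ 2) (LBP_e K D x).1 (LBP_e K D x).2 := by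
      refine Finset.sum_congr rfl fun x _ => ?_
      ring
    refine (h1.trans (LBP_sum K D (fun a b => g a ^ 2 * h b ^ 2))).trans ?_
    rw [Finset.sum_mul]
    refine Finset.sum_congr rfl fun a _ => ?_
    rw [Finset.mul_sum]

/-- the star -/
noncomputable def LBP_h (D : ℕ) (r : ℝ) (s : Finset (Fin D)) : ℝ :=
  if s.card = 0 then 1 else if s.card = 1 then r else 0

/-- the family of the star -/
noncomputable def LBP_St (D : ℕ) : Fam D := univ.filter fun s => s.card ≤ 1

theorem LBP_St_eq (D : ℕ) : LBP_St D = insert ∅ (univ.image fun j : Fin D => ({j} : Finset (Fin D))) := by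
  unfold LBP_St
  ext s
  rw [Finset.mem_filter, Finset.mem_insert, Finset.mem_image]
  constructor
  · rintro ⟨_, h⟩
    rcases Nat.le_one_iff_eq_zero_or_eq_one.1 h with h | h
    · exact Or.inl (Finset.card_eq_zero.1 h)
    · obtain ⟨j, hj⟩ := Finset.card_eq_one.1 h
      exact Or.inr ⟨j, Finset.mem_univ j, hj.symm⟩
  · rintro (h | ⟨j, _, h⟩)
    · rw [h]
      simp
    · rw [← h]
      simp

theorem LBP_St_sum (D : ℕ) (F : Finset (Fin D) → ℝ) :
    ∑ s ∈ LBP_St D, F s = F ∅ + ∑ j : Fin D, F {j} := by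
  rw [LBP_St_eq, Finset.sum_insert, Finset.sum_image]
  · intro i _ j _ h
    exact Finset.singleton_injective h
  · intro h
    obtain ⟨j, _, hj⟩ := Finset.mem_image.1 h
    exact Finset.singleton_ne_empty j hj

theorem LBP_St_card (D : ℕ) : (LBP_St D).card = D + 1 := by
  rw [LBP_St_eq, Finset.card_insert_of_notMem, Finset.card_image_of_injective _ Finset.singleton_injective,
    Finset.card_univ, Fintype.card_fin]
  intro h
  obtain ⟨j, _, hj⟩ := Finset.mem_image.1 h
  exact Finset.singleton_ne_empty j hj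

theorem LBP_star (D : ℕ) (r : ℝ) : ∑ b, LBP_h D r b ^ 2 = 1 + D * r ^ 2 ∧ DC_tot (LBP_h D r) = 2 * D * r := by
  have hsupp : ∀ s, s ∉ LBP_St D → LBP_h D r s = 0 := by
    intro s hs
    unfold LBP_St at hs
    rw [Finset.mem_filter] at hs
    push Not at hs
    have h1 := hs (Finset.mem_univ s)
    unfold LBP_h
    rw [if_neg (by omega), if_neg (by omega)]
  have h0 : LBP_h D r ∅ = 1 := by
    unfold LBP_h
    simp
  have h1 : ∀ j : Fin D, LBP_h D r {j} = r := by
    intro j
    unfold LBP_h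
    simp
  constructor
  · rw [← Finset.sum_subset (Finset.subset_univ (LBP_St D)), LBP_St_sum, h0]
    · rw [Finset.sum_congr rfl fun j _ => by rw [h1 j], Finset.sum_const, Finset.card_univ,
        Fintype.card_fin, nsmul_eq_mul]
      ring
    · intro s _ hs
      rw [hsupp s hs]
      ring
  · rw [HQ.DC_tot_eq (LBP_St D) (LBP_h D r) hsupp]
    unfold E
    rw [LBP_St_sum, Finset.sum_empty]
    have h2 : ∀ j : Fin D, ∑ i ∈ ({j} : Finset (Fin D)), LBP_h D r {j} * LBP_h D r (({j} : Finset (Fin D)).erase i) = r := by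
      intro j
      rw [Finset.sum_singleton, h1, Finset.erase_singleton, h0, mul_one]
    rw [Finset.sum_congr rfl fun j _ => h2 j, Finset.sum_const, Finset.card_univ, Fintype.card_fin,
      nsmul_eq_mul]
    ring

theorem LBP (hTRN : HX.TRN_stmt) : LBP_stmt := by
  intro K d m hK hKd hm hmd
  obtain ⟨D, rfl⟩ : ∃ D, d = K + D := ⟨d - K, by omega⟩
  have hD : 1 ≤ D := by omega
  obtain ⟨⟨U, hU, ht⟩, -⟩ := Pool.Agent.helper65.HC.lam_isGreatest K K hK Nat.lt_two_pow_self.le
  obtain ⟨A, g, hA, hg0, hgs, hg1, hgt⟩ := HQ.DC_start K U (lam K K) ht.1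
  have hDr : (1 : ℝ) ≤ D := by exact_mod_cast hD
  set r : ℝ := 1 / √D with hr
  have hsD : 0 < √(D : ℝ) := Real.sqrt_pos.2 (by linarith)
  have hsD2 : √(D : ℝ) ^ 2 = D := Real.sq_sqrt (by linarith)
  have hDr1 : (D : ℝ) * r ^ 2 = 1 := by
    rw [hr, div_pow, hsD2]
    field_simp
  have hDr2 : (D : ℝ) * r = √(D : ℝ) := by
    rw [hr]
    field_simp
    rw [hsD2]
  obtain ⟨hs1, hs2⟩ := LBP_star D r
  rw [hDr1] at hs1
  obtain ⟨hp1, hp2⟩ := LBP_prod K D g (LBP_h D r)
  set F : Finset (Fin (K + D)) → ℝ := fun x => g (LBP_e K D x).1 * LBP_h D r (LBP_e K D x).2 with hF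
  set W : Fam (K + D) := (A ×ˢ LBP_St D).map (LBP_e K D).symm.toEmbedding with hW
  have hWc : W.card ≤ m := by
    rw [hW, Finset.card_map, Finset.card_product, LBP_St_card, hA, hU]
    refine le_trans ?_ hm
    apply Nat.mul_le_mul_left
    omega
  have hFs : ∀ x, x ∉ W → F x = 0 := by
    intro x hx
    by_contra hcon
    apply hx
    rw [hW, Finset.mem_map]
    refine ⟨LBP_e K D x, ?_, by simp⟩
    rw [Finset.mem_product]
    constructor
    · by_contra h1
      apply hcon
      show g (LBP_e K D x).1 * _ = 0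
      rw [hgs _ h1, zero_mul]
    · by_contra h1
      apply hcon
      unfold LBP_St at h1
      rw [Finset.mem_filter] at h1
      push Not at h1
      have h2 := h1 (Finset.mem_univ _)
      show _ * LBP_h D r (LBP_e K D x).2 = 0
      unfold LBP_h
      rw [if_neg (by omega), if_neg (by omega), mul_zero]
  have h1 := hTRN (K + D) m W F hWc hmd
  have h2 : Ef W F = DC_tot F := by
    rw [HQ.DC_tot_eq W F hFs]
    unfold Ef E
    refine congrArg _ (Finset.sum_congr rfl fun x _ => Finset.sum_congr rfl fun i _ => ?_)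
    by_cases h3 : x.erase i ∈ W
    · rw [if_pos h3]
    · rw [if_neg h3, hFs _ h3, mul_zero]
  have h3 : N W F = ∑ x, F x ^ 2 := by
    unfold N
    refine Finset.sum_subset (Finset.subset_univ W) fun x _ hx => ?_
    rw [hFs x hx]
    ring
  rw [h2, h3, hp1, hp2, hs1, hs2, hg1] at h1
  have h4 : ((K + D : ℕ) : ℝ) - K = D := by
    push_cast
    ring
  rw [h4]
  have h5 : 2 * (D : ℝ) * r = 2 * √(D : ℝ) := by rw [mul_assoc, hDr2]
  rw [h5] at h1
  linarith

end Pool.Agent.helper9.HLR
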