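import Pool.Agent.helper9.HLR.Spec

set_option autoImplicit false

open scoped Classical

namespace Pool.Agent.helper9.HLR

open Finset
open Pool.Agent.helper65.HC (V IsEig IsTop lam)
open Pool.Agent.helper9.HQ (Fam Dn E N Le Eig lk c)
open Pool.Agent.helper9.HX (nu ee up s2 Ef Pf)

theorem ASM_sqrt (a b : ℝ) (ha : 0 < a) (hb : 0 ≤ b) (hab : b ≤ a) : √(a - b) ≤ √a - b / (2 * √a) := by
  have hs : 0 < √a := Real.sqrt_pos.2 ha
  have hs2 : √a ^ 2 = a := Real.sq_sqrt ha.le
  have h1 : b / (2 * √a) ≤ √a := by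
    rw [div_le_iff₀ (by positivity)]
    nlinarith
  apply Real.sqrt_le_iff.2
  refine ⟨by linarith, ?_⟩
  have h2 : (√a - b / (2 * √a)) ^ 2 = a - b + (b / (2 * √a)) ^ 2 := by
    have h3 : √a * (b / (2 * √a)) = b / 2 := by
      field_simp
    calc (√a - b / (2 * √a)) ^ 2 = √a ^ 2 - 2 * (√a * (b / (2 * √a))) + (b / (2 * √a)) ^ 2 := by ring
      _ = a - b + (b / (2 * √a)) ^ 2 := by rw [hs2, h3]; ring
  rw [h2]
  have : 0 ≤ (b / (2 * √a)) ^ 2 := sq_nonneg _
  linarith

theorem ASM_num (K R c₁ C d t P lamK g : ℝ) (hK : 1 ≤ K) (hR : 0 ≤ R) (hc : 0 < c₁)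
    (hC : C = R * (K + 1) + 12 * K ^ 2 / c₁ + 12 * K * (R + K) / c₁ + 1) (hd1 : 1 ≤ d) (hdR : R ≤ d)
    (ht : 0 < t) (htd : t ≤ (K + 1) * d) (hP : P = √(d + R)) (hlam : 0 ≤ lamK)
    (hg : g = c₁ * t / (2 * P)) :
    0 < P ∧ (4 * K ≤ g → P + lamK + 4 * K ^ 2 / g ≤ √d + lamK + C * √d / t) ∧
      (g < 4 * K → P + K ≤ √d + lamK + C * √d / t) := by
  have hd0 : 0 < d := by linarith
  set r : ℝ := √d with hr
  have hr1 : 1 ≤ r := by
    rw [hr]
    exact Real.one_le_sqrt.2 hd1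
  have hr2 : r ^ 2 = d := Real.sq_sqrt hd0.le
  have hP0 : 0 < P := by rw [hP]; exact Real.sqrt_pos.2 (by linarith)
  have hP1 : P ≤ 3 / 2 * r := by
    rw [hP]
    apply Real.sqrt_le_iff.2
    refine ⟨by positivity, ?_⟩
    nlinarith
  have hP2 : P ≤ r + R / r := by
    rw [hP]
    apply Real.sqrt_le_iff.2
    refine ⟨by positivity, ?_⟩
    have h1 : (r + R / r) ^ 2 = d + 2 * R + (R / r) ^ 2 := by
      have h2 : r * (R / r) = R := by field_simp
      calc (r + R / r) ^ 2 = r ^ 2 + 2 * (r * (R / r)) + (R / r) ^ 2 := by ring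
        _ = _ := by rw [hr2, h2]
    rw [h1]
    have : 0 ≤ (R / r) ^ 2 := sq_nonneg _
    linarith
  have hRr : R / r ≤ R := div_le_self hR hr1
  refine ⟨hP0, ?_, ?_⟩
  · intro h4
    have hg0 : 0 < g := by linarith
    have h1 : 4 * K ^ 2 / g ≤ 12 * K ^ 2 / c₁ * r / t := by
      rw [hg]
      have h2 : 4 * K ^ 2 / (c₁ * t / (2 * P)) = 8 * K ^ 2 * P / (c₁ * t) := by
        field_simp
        ring
      have h3 : 12 * K ^ 2 / c₁ * r / t = 8 * K ^ 2 * (3 / 2 * r) / (c₁ * t) := by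
        field_simp
        ring
      rw [h2, h3]
      apply div_le_div_of_nonneg_right _ (by positivity)
      apply mul_le_mul_of_nonneg_left hP1 (by positivity)
    have h2 : R / r ≤ R * (K + 1) * r / t := by
      rw [div_le_div_iff₀ (by linarith) ht]
      have h3 : R * (K + 1) * r * r = R * ((K + 1) * d) := by rw [← hr2]; ring
      rw [h3]
      exact mul_le_mul_of_nonneg_left htd hR
    have h3 : C * r / t = R * (K + 1) * r / t + 12 * K ^ 2 / c₁ * r / t +
        (12 * K * (R + K) / c₁ * r / t + r / t) := by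
      rw [hC]
      ring
    have h4 : 0 ≤ 12 * K * (R + K) / c₁ * r / t + r / t := by positivity
    linarith
  · intro h4
    have h1 : c₁ * t < 12 * K * r := by
      rw [hg, div_lt_iff₀ (by positivity)] at h4
      have : 4 * K * (2 * P) ≤ 4 * K * (2 * (3 / 2 * r)) := by
        apply mul_le_mul_of_nonneg_left _ (by positivity)
        linarith
      linarith
    have h2 : R + K ≤ C * r / t := by
      have h3 : 12 * K * (R + K) / c₁ ≤ C := by
        rw [hC]
        have : 0 ≤ 12 * K ^ 2 / c₁ := by positivity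
        have : 0 ≤ R * (K + 1) := by positivity
        linarith
      rw [le_div_iff₀ ht]
      calc (R + K) * t = (R + K) / c₁ * (c₁ * t) := by field_simp
        _ ≤ (R + K) / c₁ * (12 * K * r) := mul_le_mul_of_nonneg_left h1.le (by positivity)
        _ = 12 * K * (R + K) / c₁ * r := by ring
        _ ≤ C * r := mul_le_mul_of_nonneg_right h3 (by linarith)
    linarith

theorem ASM (hCLB : CLB_stmt) (hCLE : CLE_stmt) (hSPL : SPL_stmt) (hQFM : QFM_stmt) : ASM_stmt := by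
  intro K hK
  obtain ⟨R, c₁, d₀, hR, hc, hc1, h⟩ := hCLB K hK
  have hKr : (1 : ℝ) ≤ K := by exact_mod_cast hK
  refine ⟨R * ((K : ℝ) + 1) + 12 * (K : ℝ) ^ 2 / c₁ + 12 * K * (R + K) / c₁ + 1,
    max d₀ (⌈R⌉₊ + 1), by positivity, ?_⟩
  intro d hd U hU hUc
  obtain ⟨S, B, hS, hB, hBS, hall, hout⟩ := h d ((le_max_left _ _).trans hd) U hU hUc
  have hd1 : ⌈R⌉₊ + 1 ≤ d := (le_max_right _ _).trans hd
  have hdR : R ≤ d := (Nat.le_ceil R).trans (by exact_mod_cast (by omega : ⌈R⌉₊ ≤ d))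
  have hd1' : (1 : ℝ) ≤ d := by exact_mod_cast (by omega : 1 ≤ d)
  have hUc' : (U.card : ℝ) < (K + 1) * d := by exact_mod_cast hUc
  intro f
  set t : ℝ := (K + 1) * d - U.card with ht
  have ht0 : 0 < t := by linarith
  have htd : t ≤ (K + 1) * d := by
    have : (0 : ℝ) ≤ U.card := Nat.cast_nonneg _
    linarith
  obtain ⟨hN, hE⟩ := hSPL d U S f hU
  set P : ℝ := √(d + R) with hP
  set n : Finset (Fin d) → ℝ := fun w => √(N (cel S w U) f) with hn
  have hn2 : ∀ w, n w ^ 2 = N (cel S w U) f := by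
    intro w
    refine Real.sq_sqrt ?_
    unfold N
    exact Finset.sum_nonneg fun _ _ => sq_nonneg _
  set ell : Finset (Fin d) → ℝ := fun w => if w ∈ B then P else √(d - c₁ * t + R) with hell
  have hellP : ∀ w, w ⊆ S → ell w ≤ P := by
    intro w _
    show (if w ∈ B then P else √(d - c₁ * t + R)) ≤ P
    split_ifs
    · exact le_refl _
    · rw [hP]
      apply Real.sqrt_le_sqrt
      have : 0 ≤ c₁ * t := by positivity
      linarith
  have hlamK : 0 ≤ lam K K := (hQFM d K S n ell P hK hS (fun w => Real.sqrt_nonneg _) hellP).2.2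
  obtain ⟨hP0, hA, hBb⟩ := ASM_num (K : ℝ) R c₁ (R * ((K : ℝ) + 1) + 12 * (K : ℝ) ^ 2 / c₁ +
    12 * K * (R + K) / c₁ + 1) d t P (lam K K) (c₁ * t / (2 * P)) hKr hR hc rfl hd1' hdR ht0 htd rfl
    hlamK rfl
  have hcells : ∑ w ∈ S.powerset, Ef (cel S w U) f ≤ ∑ w ∈ S.powerset, ell w * n w ^ 2 := by
    refine Finset.sum_le_sum fun w hw => ?_
    rw [mem_powerset] at hw
    rw [hn2]
    by_cases hwB : w ∈ B
    · have e1 : ell w = P := if_pos hwB
      rw [e1]
      exact hCLE d U S w _ f hU hw (hall w hw)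
    · have e1 : ell w = √(d - c₁ * t + R) := if_neg hwB
      rw [e1]
      exact hCLE d U S w _ f hU hw (hout w hw hwB)
  have hNN : ∑ w ∈ S.powerset, n w ^ 2 = N U f := by
    rw [hN]
    exact Finset.sum_congr rfl fun w _ => hn2 w
  have hN0 : 0 ≤ N U f := by
    unfold N
    exact Finset.sum_nonneg fun _ _ => sq_nonneg _
  have hE2 : E U f ≤ ∑ w ∈ S.powerset, ell w * n w ^ 2 +
      2 * ∑ w ∈ S.powerset, ∑ j ∈ w, n w * n (w.erase j) := by
    refine hE.trans ?_
    linarith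
  obtain ⟨hQ1, hQ2, -⟩ := hQFM d K S n ell P hK hS (fun w => Real.sqrt_nonneg _) hellP
  rw [hNN] at hQ2
  rcases le_or_gt (4 * (K : ℝ)) (c₁ * t / (2 * P)) with hg | hg
  · have hgap : ∀ w, w ⊆ S → w ∉ B → ell w ≤ P - c₁ * t / (2 * P) := by
      intro w _ hwB
      have e1 : ell w = √(d - c₁ * t + R) := if_neg hwB
      rw [e1]
      have e2 : (d : ℝ) - c₁ * t + R = (d + R) - c₁ * t := by ring
      rw [e2, hP]
      apply ASM_sqrt
      · linarith
      · positivity
      · have : c₁ * t ≤ c₁ * ((K + 1) * d) := mul_le_mul_of_nonneg_left htd hc.le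
        have h2 : c₁ * ((K + 1) * d) ≤ 1 * d := by
          rw [← mul_assoc]
          exact mul_le_mul_of_nonneg_right hc1 (by linarith)
        linarith
    have h1 := hQ1 B (c₁ * t / (2 * P)) hB hBS hgap hg
    rw [hNN] at h1
    exact (hE2.trans h1).trans (mul_le_mul_of_nonneg_right (hA hg) hN0)
  · exact (hE2.trans hQ2).trans (mul_le_mul_of_nonneg_right (hBb hg) hN0)

end Pool.Agent.helper9.HLR
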