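import Pool.Agent.helper9.HLR.Spec

set_option autoImplicit false

open scoped Classical

namespace Pool.Agent.helper9.HLR

open Finset
open Pool.Agent.helper65.HC (V IsEig IsTop lam)
open Pool.Agent.helper9.HQ (Fam Dn E N Le Eig lk c)
open Pool.Agent.helper9.HX (nu ee up s2 Ef Pf)

theorem CLB_mono {d : ℕ} {L : Fam d} {a b : ℝ} (h : Le L a) (hab : a ≤ b) : Le L b := by
  intro f
  refine (h f).trans (mul_le_mul_of_nonneg_right hab ?_)
  unfold N
  exact Finset.sum_nonneg fun _ _ => sq_nonneg _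

theorem CLB (hLNK : LNK_stmt) (hSHL : SHL_stmt) (hCOR : COR_stmt) (hCLC : CLC_stmt) : CLB_stmt := by
  intro K hK
  have hKr : (1 : ℝ) ≤ K := by exact_mod_cast hK
  set κ : ℝ := 1 / (2 * ((K : ℝ) + 2)) with hκ
  have hκ0 : 0 < κ := by rw [hκ]; positivity
  have hκ1 : κ ≤ 1 / 6 := by
    rw [hκ]
    apply one_div_le_one_div_of_le (by norm_num)
    linarith
  obtain ⟨R0, d₁, hR0, hshl⟩ := hSHL κ ((K : ℝ) + 1) hκ0 (by linarith) (by linarith)
  obtain ⟨d₂, hlnk⟩ := hLNK κ ((K : ℝ) + 1) hκ0 (by linarith) (by linarith)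
  obtain ⟨d₃, hcor⟩ := hCOR K hK
  set c₁ : ℝ := κ / (4 * ((K : ℝ) + 1)) with hc₁
  have hc1 : c₁ * ((K : ℝ) + 1) = κ / 4 := by
    rw [hc₁]
    field_simp
  have hc0 : 0 < c₁ := by rw [hc₁]; positivity
  refine ⟨R0 + K + 1, c₁, max d₁ (max d₂ d₃), by linarith, hc0, by linarith, ?_⟩
  intro d hd U hU hUc
  have hd1 : d₁ ≤ d := (le_max_left _ _).trans hd
  have hd2 : d₂ ≤ d := ((le_max_left _ _).trans (le_max_right _ _)).trans hd
  have hd3 : d₃ ≤ d := ((le_max_right _ _).trans (le_max_right _ _)).trans hd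
  obtain ⟨hD, hcard, B, hBc, hBK, hBw⟩ := hcor d hd3 U hU hUc
  have hd0 : (0 : ℝ) ≤ d := Nat.cast_nonneg d
  have hUc' : (U.card : ℝ) < (K + 1) * d := by exact_mod_cast hUc
  set t : ℝ := (K + 1) * d - U.card with ht
  have ht0 : 0 < t := by linarith
  have htd : t ≤ (K + 1) * d := by
    have : (0 : ℝ) ≤ U.card := Nat.cast_nonneg _
    linarith
  have hct : c₁ * t ≤ κ / 4 * d := by
    calc c₁ * t ≤ c₁ * ((K + 1) * d) := mul_le_mul_of_nonneg_left htd hc0.le
      _ = κ / 4 * d := by rw [← mul_assoc, hc1]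
  set S : Finset (Fin d) := univ.filter fun i => {i} ∈ cor K U with hS
  have hwS : ∀ w ∈ cor K U, w ⊆ S := by
    intro w hw i hi
    rw [hS, Finset.mem_filter]
    exact ⟨Finset.mem_univ i, hD w hw _ (Finset.singleton_subset_iff.2 hi)⟩
  have hSK : S.card ≤ K := by
    rcases Finset.eq_empty_or_nonempty S with h | ⟨i, hi⟩
    · rw [h]
      simp
    · have h1 : {i} ∈ cor K U := by
        rw [hS, Finset.mem_filter] at hi
        exact hi.2
      have h2 : ∅ ∈ cor K U := hD _ h1 _ (Finset.empty_subset _)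
      have h3 : S.card ≤ ((cor K U).erase ∅).card := by
        refine Finset.card_le_card_of_injOn (fun i => ({i} : Finset (Fin d))) ?_ ?_
        · intro j hj
          rw [Finset.mem_coe, hS, Finset.mem_filter] at hj
          exact Finset.mem_coe.2 (Finset.mem_erase.2 ⟨Finset.singleton_ne_empty j, hj.2⟩)
        · intro j _ k _ hjk
          exact Finset.singleton_injective hjk
      rw [Finset.card_erase_of_mem h2] at h3
      omega
  have hup : ∀ w, w ∉ cor K U → (up w U : ℝ) ≤ (1 - κ) * d := by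
    intro w hw
    by_cases hwU : w ∈ U
    · by_contra hcon
      push Not at hcon
      apply hw
      unfold cor
      rw [Finset.mem_filter]
      exact ⟨hwU, hcon.le⟩
    · have h1 : up w U = 0 := by
        unfold up
        rw [Finset.card_eq_zero, Finset.filter_eq_empty_iff]
        intro k _ hk
        exact hwU (hU _ hk.2 _ (Finset.subset_insert k w))
      rw [h1, Nat.cast_zero]
      have : 0 ≤ 1 - κ := by linarith
      positivity
  have hupd : ∀ w, (up w U : ℝ) ≤ d := by
    intro w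
    have h1 : up w U ≤ d := by
      unfold up
      refine (Finset.card_filter_le _ _).trans ?_
      rw [Finset.card_univ, Fintype.card_fin]
    exact_mod_cast h1
  -- cells outside the core
  have hout : ∀ w, w ⊆ S → w ∉ cor K U → Le (Lc S w U) (√((1 - κ / 2) * d)) := by
    intro w hw hwc
    obtain ⟨h1, h2, h3, -, -⟩ := hCLC d U S w hU hw
    refine hlnk d hd2 _ h1 ?_ ?_
    · have : ((Lc S w U).card : ℝ) ≤ U.card := by exact_mod_cast h2
      linarith
    · have : (nu (Lc S w U) : ℝ) ≤ up w U := by exact_mod_cast h3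
      exact this.trans (hup w hwc)
  have hin : ∀ w, w ∈ cor K U → Le (Lc S w U) (√(max ((up w U : ℝ) + R0) ((1 - κ / 4) * d))) := by
    intro w hwc
    have hw := hwS w hwc
    obtain ⟨h1, h2, h3, h4, h5⟩ := hCLC d U S w hU hw
    have h6 := hshl d hd1 (Lc S w U) h1 (by
      have : ((Lc S w U).card : ℝ) ≤ U.card := by exact_mod_cast h2
      linarith) (by
      intro i
      by_cases hi : i ∈ S
      · rw [h4 i hi, Nat.cast_zero]
        have : 0 ≤ 1 - κ := by linarith
        positivity
      · have h7 : (nu (lk i (Lc S w U)) : ℝ) ≤ up (insert i w) U := by exact_mod_cast h5 i hi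
        refine h7.trans (hup _ ?_)
        intro h8
        exact hi (hwS _ h8 (Finset.mem_insert_self i w)))
    refine CLB_mono h6 (Real.sqrt_le_sqrt ?_)
    apply max_le_max _ (le_refl _)
    have : (nu (Lc S w U) : ℝ) ≤ up w U := by exact_mod_cast h3
    linarith
  refine ⟨S, B, hSK, hBK, fun w hw => hwS w (hBc hw), ?_, ?_⟩
  · intro w hw
    by_cases hwc : w ∈ cor K U
    · refine CLB_mono (hin w hwc) (Real.sqrt_le_sqrt (max_le ?_ ?_))
      · linarith [hupd w]
      · nlinarith
    · refine CLB_mono (hout w hw hwc) (Real.sqrt_le_sqrt ?_)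
      nlinarith
  · intro w hw hwB
    by_cases hwc : w ∈ cor K U
    · refine CLB_mono (hin w hwc) (Real.sqrt_le_sqrt (max_le ?_ ?_))
      · have h1 := hBw w hwc hwB
        have h2 : ((K : ℝ) + 1) * up w U ≤ U.card + (K + 1) ^ 2 := by exact_mod_cast h1
        have h3 : 0 ≤ ((K : ℝ) + 1) * ((d : ℝ) - c₁ * t + (R0 + K + 1) - (up w U + R0)) := by
          have h4 : ((K : ℝ) + 1) * ((d : ℝ) - c₁ * t + (R0 + K + 1) - (up w U + R0)) =
              (K + 1) * d + (K + 1) ^ 2 - (K + 1) * up w U - (c₁ * (K + 1)) * t := by ring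
          rw [h4, hc1]
          have h5 : κ / 4 * t ≤ t := by nlinarith
          linarith
        have h4 : 0 ≤ (d : ℝ) - c₁ * t + (R0 + K + 1) - (up w U + R0) := by
          by_contra hcon
          push Not at hcon
          have : ((K : ℝ) + 1) * ((d : ℝ) - c₁ * t + (R0 + K + 1) - (up w U + R0)) < 0 :=
            mul_neg_of_pos_of_neg (by linarith) hcon
          linarith
        linarith
      · linarith
    · refine CLB_mono (hout w hw hwc) (Real.sqrt_le_sqrt ?_)
      have : 0 ≤ κ / 4 * d := by positivity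
      linarith

end Pool.Agent.helper9.HLR
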