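import Pool.Agent.helper9.HLR.Spec

set_option autoImplicit false

open scoped Classical

namespace Pool.Agent.helper9.HLR

open Finset
open Pool.Agent.helper65.HC (V IsEig IsTop lam)
open Pool.Agent.helper9.HQ (Fam Dn E N Le Eig lk c)
open Pool.Agent.helper9.HX (nu ee up s2 Ef Pf)

theorem CLC_mem {d : ℕ} (S w : Finset (Fin d)) (U : Fam d) (y : Finset (Fin d)) :
    y ∈ Lc S w U ↔ Disjoint y S ∧ y ∪ w ∈ U := by
  unfold Lc
  rw [Finset.mem_filter]
  exact ⟨fun h => h.2, fun h => ⟨Finset.mem_univ y, h⟩⟩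

theorem CLC_nu {d : ℕ} (L : Fam d) : nu L = (univ.filter fun i : Fin d => {i} ∈ L).card := by
  unfold nu
  symm
  refine Finset.card_bij (fun i _ => ({i} : Finset (Fin d))) ?_ ?_ ?_
  · intro i hi
    rw [Finset.mem_filter] at hi ⊢
    exact ⟨hi.2, Finset.card_singleton i⟩
  · intro i _ j _ h
    exact Finset.singleton_injective h
  · intro x hx
    rw [Finset.mem_filter] at hx
    obtain ⟨i, hi⟩ := Finset.card_eq_one.1 hx.2
    refine ⟨i, ?_, hi.symm⟩
    rw [Finset.mem_filter]
    refine ⟨Finset.mem_univ i, ?_⟩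
    rw [← hi]
    exact hx.1

theorem CLC : CLC_stmt := by
  intro d U S w hU hw
  have hdis : ∀ (y : Finset (Fin d)), Disjoint y S → (y ∪ w) \ S = y := by
    intro y hy
    ext i
    rw [mem_sdiff, mem_union]
    constructor
    · rintro ⟨h1 | h1, h2⟩
      · exact h1
      · exact absurd (hw h1) h2
    · intro h1
      exact ⟨Or.inl h1, fun h2 => (Finset.disjoint_left.1 hy) h1 h2⟩
  refine ⟨?_, ?_, ?_, ?_, ?_⟩
  · intro x hx y hyx
    rw [CLC_mem] at hx ⊢
    exact ⟨Finset.disjoint_of_subset_left hyx hx.1, hU _ hx.2 _ (Finset.union_subset_union_left hyx)⟩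
  · refine Finset.card_le_card_of_injOn (fun y => y ∪ w) ?_ ?_
    · intro y hy
      rw [Finset.mem_coe, CLC_mem] at hy
      exact hy.2
    · intro y hy z hz h
      rw [Finset.mem_coe, CLC_mem] at hy hz
      have h' : y ∪ w = z ∪ w := h
      rw [← hdis y hy.1, h', hdis z hz.1]
  · rw [CLC_nu]
    unfold up
    refine Finset.card_le_card fun i hi => ?_
    rw [Finset.mem_filter, CLC_mem] at hi
    rw [Finset.mem_filter]
    have hiS : i ∉ S := Finset.disjoint_singleton_left.1 hi.2.1
    refine ⟨Finset.mem_univ i, fun h => hiS (hw h), ?_⟩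
    have h1 := hi.2.2
    rwa [Finset.singleton_union] at h1
  · intro i hi
    rw [CLC_nu]
    rw [Finset.card_eq_zero, Finset.filter_eq_empty_iff]
    intro k _ hk
    unfold lk at hk
    rw [Finset.mem_filter, CLC_mem, CLC_mem] at hk
    have h1 := hk.2.2.1
    exact (Finset.disjoint_left.1 h1) (Finset.mem_insert_self i {k}) hi
  · intro i hi
    rw [CLC_nu]
    unfold up
    refine Finset.card_le_card fun k hk => ?_
    rw [Finset.mem_filter] at hk
    have hk2 := hk.2
    unfold lk at hk2
    rw [Finset.mem_filter, CLC_mem, CLC_mem] at hk2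
    obtain ⟨⟨h1, h2⟩, h3, h4, h5⟩ := hk2
    rw [Finset.mem_filter]
    have hkS : k ∉ S := Finset.disjoint_singleton_left.1 h1
    have hki : k ≠ i := fun h => h3 (by rw [h]; exact Finset.mem_singleton_self i)
    refine ⟨Finset.mem_univ k, ?_, ?_⟩
    · rw [Finset.mem_insert]
      rintro (h | h)
      · exact hki h
      · exact hkS (hw h)
    · have h6 : insert i {k} ∪ w = insert k (insert i w) := by
        ext j
        simp only [Finset.mem_union, Finset.mem_insert, Finset.mem_singleton]
        tauto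
      rw [← h6]
      exact h5

theorem CLE : CLE_stmt := by
  intro d U S w ell f hU hw hL
  have hdis : ∀ (y : Finset (Fin d)), Disjoint y S → (y ∪ w) \ S = y := by
    intro y hy
    ext i
    rw [mem_sdiff, mem_union]
    constructor
    · rintro ⟨h1 | h1, h2⟩
      · exact h1
      · exact absurd (hw h1) h2
    · intro h1
      exact ⟨Or.inl h1, fun h2 => (Finset.disjoint_left.1 hy) h1 h2⟩
  have hint : ∀ (y : Finset (Fin d)), Disjoint y S → (y ∪ w) ∩ S = w := by
    intro y hy
    ext i
    rw [mem_inter, mem_union]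
    constructor
    · rintro ⟨h1 | h1, h2⟩
      · exact absurd h2 ((Finset.disjoint_left.1 hy) h1)
      · exact h1
    · intro h1
      exact ⟨Or.inr h1, hw h1⟩
  have hcel : ∀ x, x ∈ cel S w U → x \ S ∈ Lc S w U ∧ (x \ S) ∪ w = x := by
    intro x hx
    unfold cel at hx
    rw [Finset.mem_filter] at hx
    have h1 : (x \ S) ∪ w = x := by
      rw [← hx.2]
      exact Finset.sdiff_union_inter x S
    refine ⟨?_, h1⟩
    rw [CLC_mem, h1]
    exact ⟨Finset.sdiff_disjoint, hx.1⟩
  have hLc : ∀ y, y ∈ Lc S w U → y ∪ w ∈ cel S w U := by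
    intro y hy
    rw [CLC_mem] at hy
    unfold cel
    rw [Finset.mem_filter]
    exact ⟨hy.2, hint y hy.1⟩
  have hsum : ∀ F : Finset (Fin d) → ℝ, ∑ x ∈ cel S w U, F x = ∑ y ∈ Lc S w U, F (y ∪ w) := by
    intro F
    symm
    refine Finset.sum_nbij' (fun y => y ∪ w) (fun x => x \ S) hLc (fun x hx => (hcel x hx).1) ?_ ?_ ?_
    · intro y hy
      rw [CLC_mem] at hy
      exact hdis y hy.1
    · intro x hx
      exact (hcel x hx).2
    · intro y _
      rfl
  have h1 := hL (fun y => f (y ∪ w))
  have hN : N (Lc S w U) (fun y => f (y ∪ w)) = N (cel S w U) f := by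
    unfold N
    rw [hsum]
  have hE : E (Lc S w U) (fun y => f (y ∪ w)) = Ef (cel S w U) f := by
    unfold E Ef
    rw [hsum]
    refine congrArg _ (Finset.sum_congr rfl fun y hy => ?_)
    have hy' := (CLC_mem S w U y).1 hy
    have hyw : Disjoint y w := Finset.disjoint_of_subset_right hw hy'.1
    rw [Finset.sum_union hyw]
    have e1 : ∑ i ∈ w, (if (y ∪ w).erase i ∈ cel S w U then f (y ∪ w) * f ((y ∪ w).erase i) else 0) = 0 := by
      refine Finset.sum_eq_zero fun i hi => if_neg fun h => ?_
      unfold cel at h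
      rw [Finset.mem_filter] at h
      have h2 : i ∈ (y ∪ w).erase i ∩ S := by
        rw [h.2]
        exact hi
      rw [Finset.mem_inter, Finset.mem_erase] at h2
      exact h2.1.1 rfl
    rw [e1, add_zero]
    refine Finset.sum_congr rfl fun i hi => ?_
    have hiw : i ∉ w := fun h => (Finset.disjoint_left.1 hyw) hi h
    have e2 : (y ∪ w).erase i = y.erase i ∪ w := by
      ext j
      simp only [Finset.mem_erase, Finset.mem_union]
      constructor
      · rintro ⟨h2, h3 | h3⟩
        · exact Or.inl ⟨h2, h3⟩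
        · exact Or.inr h3
      · rintro (⟨h2, h3⟩ | h3)
        · exact ⟨h2, Or.inl h3⟩
        · exact ⟨fun h => hiw (h ▸ h3), Or.inr h3⟩
    have e3 : (y ∪ w).erase i ∈ cel S w U := by
      rw [e2]
      apply hLc
      rw [CLC_mem]
      exact ⟨Finset.disjoint_of_subset_left (Finset.erase_subset i y) hy'.1,
        hU _ hy'.2 _ (Finset.union_subset_union_left (Finset.erase_subset i y))⟩
    rw [if_pos e3, e2]
  rw [hN, hE] at h1
  exact h1

end Pool.Agent.helper9.HLR
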