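import Pool.Agent.helper9.HLR.Spec

set_option autoImplicit false

open scoped Classical

namespace Pool.Agent.helper9.HLR

open Finset
open Pool.Agent.helper65.HC (V IsEig IsTop lam)
open Pool.Agent.helper9.HQ (Fam Dn E N Le Eig lk c)
open Pool.Agent.helper9.HX (nu ee up s2 Ef Pf)

theorem EEF : EEF_stmt := by
  intro d U f hU
  unfold E Ef
  refine congrArg _ (Finset.sum_congr rfl fun x hx => Finset.sum_congr rfl fun i _ => ?_)
  rw [if_pos (hU x hx _ (erase_subset i x))]

theorem DSB : DSB_stmt := by
  intro d C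
  have key : ∀ (k n : ℕ) (C : Fam d), Dn C → C.card = n + k → ∃ C' ⊆ C, Dn C' ∧ C'.card = n := by
    intro k
    induction k with
    | zero =>
      intro n C hC hc
      exact ⟨C, Finset.Subset.refl _, hC, hc⟩
    | succ k ih =>
      intro n C hC hc
      have hne : C.Nonempty := by
        rw [← Finset.card_pos, hc]
        omega
      obtain ⟨x, hx, hmax⟩ := Finset.exists_max_image C (fun x => x.card) hne
      have hD : Dn (C.erase x) := by
        intro y hy z hzy
        rw [Finset.mem_erase] at hy ⊢
        refine ⟨?_, hC y hy.2 z hzy⟩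
        intro h
        rw [h] at hzy
        have h1 := hmax y hy.2
        have h2 : x = y := Finset.eq_of_subset_of_card_le hzy h1
        exact hy.1 h2.symm
      obtain ⟨C', hC', h1, h2⟩ := ih n (C.erase x) hD (by
        rw [Finset.card_erase_of_mem hx, hc]
        omega)
      exact ⟨C', hC'.trans (Finset.erase_subset _ _), h1, h2⟩
  intro n hC hn
  exact key (C.card - n) n C hC (by omega)

theorem PRS : PRS_stmt := by
  intro d U C hU hC hCU
  set S : Finset (Fin d) := univ.filter fun i => {i} ∈ C with hS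
  have hSc : S.card ≤ C.card := by
    refine Finset.card_le_card_of_injOn (fun i => ({i} : Finset (Fin d))) ?_ ?_
    · intro i hi
      rw [Finset.mem_coe, hS, Finset.mem_filter] at hi
      exact hi.2
    · intro i _ j _ hij
      exact Finset.singleton_injective hij
  have hwS : ∀ w ∈ C, w ⊆ S := by
    intro w hw i hi
    rw [hS, Finset.mem_filter]
    exact ⟨Finset.mem_univ i, hC w hw _ (Finset.singleton_subset_iff.2 hi)⟩
  have h1 : ∀ w ∈ C, up w U ≤ (univ.filter fun k => k ∉ S ∧ insert k w ∈ U).card + S.card := by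
    intro w hw
    unfold up
    rw [← Finset.card_filter_add_card_filter_not (s := univ.filter fun k => k ∉ w ∧ insert k w ∈ U)
      (fun k => k ∉ S)]
    refine Nat.add_le_add (Finset.card_le_card ?_) (Finset.card_le_card ?_)
    · intro k hk
      rw [Finset.mem_filter, Finset.mem_filter] at hk
      rw [Finset.mem_filter]
      exact ⟨Finset.mem_univ k, hk.2, hk.1.2.2⟩
    · intro k hk
      rw [Finset.mem_filter] at hk
      exact not_not.1 hk.2
  have h2 : ∑ w ∈ C, (univ.filter fun k => k ∉ S ∧ insert k w ∈ U).card ≤ U.card := by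
    rw [← Finset.card_sigma]
    refine Finset.card_le_card_of_injOn (fun p => insert p.2 p.1) ?_ ?_
    · rintro ⟨w, k⟩ hp
      rw [Finset.mem_coe, Finset.mem_sigma, Finset.mem_filter] at hp
      exact hp.2.2.2
    · rintro ⟨w, k⟩ hp ⟨w', k'⟩ hp' h
      rw [Finset.mem_coe, Finset.mem_sigma, Finset.mem_filter] at hp hp'
      have hk : k ∉ S := hp.2.2.1
      have hk' : k' ∉ S := hp'.2.2.1
      have hw : w ⊆ S := hwS w hp.1
      have hw' : w' ⊆ S := hwS w' hp'.1
      have h' : insert k w = insert k' w' := h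
      have e1 : ∀ (a : Fin d) (b : Finset (Fin d)), a ∉ S → b ⊆ S → (insert a b) ∩ S = b := by
        intro a b ha hb
        ext j
        rw [Finset.mem_inter, Finset.mem_insert]
        constructor
        · rintro ⟨h1 | h1, h2⟩
          · rw [h1] at h2
            exact absurd h2 ha
          · exact h1
        · intro h1
          exact ⟨Or.inr h1, hb h1⟩
      have hww : w = w' := by
        rw [← e1 k w hk hw, h', e1 k' w' hk' hw']
      subst hww
      have hkk : k = k' := by
        have h3 : k ∈ insert k' w := by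
          rw [← h']
          exact Finset.mem_insert_self k w
        rcases Finset.mem_insert.1 h3 with h4 | h4
        · exact h4
        · exact absurd (hw h4) hk
      rw [hkk]
  calc ∑ w ∈ C, up w U ≤ ∑ w ∈ C, ((univ.filter fun k => k ∉ S ∧ insert k w ∈ U).card + S.card) :=
        Finset.sum_le_sum h1
    _ = ∑ w ∈ C, (univ.filter fun k => k ∉ S ∧ insert k w ∈ U).card + C.card * S.card := by
        rw [Finset.sum_add_distrib, Finset.sum_const, smul_eq_mul]
    _ ≤ U.card + C.card * C.card := Nat.add_le_add h2 (Nat.mul_le_mul_left _ hSc)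

theorem COR (hDSB : DSB_stmt) (hPRS : PRS_stmt) : COR_stmt := by
  intro K hK
  refine ⟨2 * (K + 2) ^ 2 + 1, ?_⟩
  intro d hd U hU hUc
  have hK2 : (0 : ℝ) < 2 * ((K : ℝ) + 2) := by positivity
  have hD : Dn (cor K U) := by
    intro x hx y hyx
    unfold cor at hx ⊢
    rw [Finset.mem_filter] at hx ⊢
    refine ⟨hU x hx.1 y hyx, hx.2.trans ?_⟩
    have : up x U ≤ up y U := by
      unfold up
      refine Finset.card_le_card fun k hk => ?_
      rw [Finset.mem_filter] at hk ⊢
      exact ⟨Finset.mem_univ k, fun h => hk.2.1 (hyx h),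
        hU _ hk.2.2 _ (Finset.insert_subset_insert k hyx)⟩
    exact_mod_cast this
  have hcU : cor K U ⊆ U := Finset.filter_subset _ _
  have hcard : (cor K U).card ≤ K + 1 := by
    by_contra hcon
    push Not at hcon
    obtain ⟨C', hC', hD', hc'⟩ := hDSB d (cor K U) (K + 2) hD (by omega)
    have h1 := hPRS d U C' hU hD' (hC'.trans hcU)
    rw [hc'] at h1
    have h2 : ((K : ℝ) + 2) * ((1 - 1 / (2 * ((K : ℝ) + 2))) * d) ≤ ∑ w ∈ C', (up w U : ℝ) := by
      have h3 : ∑ _w ∈ C', (1 - 1 / (2 * ((K : ℝ) + 2))) * (d : ℝ) ≤ ∑ w ∈ C', (up w U : ℝ) := by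
        refine Finset.sum_le_sum fun w hw => ?_
        have := hC' hw
        unfold cor at this
        exact (Finset.mem_filter.1 this).2
      rw [Finset.sum_const, hc', nsmul_eq_mul] at h3
      push_cast at h3
      exact h3
    have h3 : (∑ w ∈ C', (up w U : ℝ)) ≤ U.card + (K + 2) * (K + 2) := by exact_mod_cast h1
    have h4 : (U.card : ℝ) < (K + 1) * d := by exact_mod_cast hUc
    have h5 : ((K : ℝ) + 2) * ((1 - 1 / (2 * ((K : ℝ) + 2))) * d) = ((K : ℝ) + 3 / 2) * d := by
      field_simp
      ring
    have h6 : (2 * ((K : ℝ) + 2) ^ 2 + 1) ≤ d := by exact_mod_cast hd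
    nlinarith
  refine ⟨hD, hcard, ?_⟩
  rcases Nat.lt_or_ge (cor K U).card (K + 1) with h | h
  · exact ⟨cor K U, Finset.Subset.refl _, by omega, fun w hw hw' => absurd hw hw'⟩
  · have hc : (cor K U).card = K + 1 := le_antisymm hcard h
    have hne : (cor K U).Nonempty := by
      rw [← Finset.card_pos, hc]
      omega
    obtain ⟨w₀, hw₀, hmin⟩ := Finset.exists_min_image (cor K U) (fun w => up w U) hne
    refine ⟨(cor K U).erase w₀, Finset.erase_subset _ _, ?_, ?_⟩
    · rw [Finset.card_erase_of_mem hw₀, hc]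
      rfl
    · intro w hw hw'
      have hww : w = w₀ := by
        by_contra h2
        exact hw' (Finset.mem_erase.2 ⟨h2, hw⟩)
      rw [hww]
      have h1 := hPRS d U (cor K U) hU hD hcU
      rw [hc] at h1
      have h2 : (cor K U).card * up w₀ U ≤ ∑ w ∈ cor K U, up w U := by
        rw [← smul_eq_mul]
        exact Finset.card_nsmul_le_sum _ _ _ hmin
      rw [hc] at h2
      rw [sq]
      exact h2.trans h1

end Pool.Agent.helper9.HLR
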