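import Pool.Agent.helper9.HLR.Spec
import Pool.Agent.helper9.HLR.CLC

set_option autoImplicit false

open scoped Classical

namespace Pool.Agent.helper9.HLR

open Finset
open Pool.Agent.helper65.HC (V IsEig IsTop lam)
open Pool.Agent.helper9.HQ (Fam Dn E N Le Eig lk c)
open Pool.Agent.helper9.HX (nu ee up s2 Ef Pf)

theorem LNK_c0 : c 0 = 1 := by
  unfold c HQ.cS HQ.cC
  norm_num

theorem LNK_sq : ∀ D : ℕ, 4 ≤ D → D ^ 2 ≤ 2 ^ D := by
  intro D hD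
  induction D, hD using Nat.le_induction with
  | base => norm_num
  | succ n hn ih =>
    rw [pow_succ 2 n]
    nlinarith

theorem LNK_num (κ C₀ de d D M : ℝ) (dU : ℝ) (hκ : 0 < κ) (hκ1 : κ < 1) (hC : 1 ≤ C₀) (hde : 0 < de)
    (hdU : 0 ≤ dU)
    (hd : 2 * (dU + 6) / (1 - κ) + 16 * C₀ / (1 - κ) ^ 2 + 8 * C₀ / ((1 - κ) ^ 2 * de) < d)
    (hD : (1 - κ) * d - 1 ≤ D) (hM : M ≤ C₀ * d) (hM0 : 0 ≤ M) :
    dU + 4 ≤ D ∧ M ≤ D ^ 2 / 4 ∧ 2 * M / D ^ 2 < de := by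
  have hk : 0 < 1 - κ := by linarith
  have e1 : 0 ≤ 2 * (dU + 6) / (1 - κ) := by positivity
  have e2 : 0 ≤ 16 * C₀ / (1 - κ) ^ 2 := by positivity
  have e3 : 0 ≤ 8 * C₀ / ((1 - κ) ^ 2 * de) := by positivity
  have h1 : 2 * (dU + 6) / (1 - κ) < d := by linarith
  have h2 : 16 * C₀ / (1 - κ) ^ 2 < d := by linarith
  have h3 : 8 * C₀ / ((1 - κ) ^ 2 * de) < d := by linarith
  rw [div_lt_iff₀ hk] at h1
  rw [div_lt_iff₀ (by positivity)] at h2 h3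
  have hd0 : 0 < d := by
    by_contra hcon
    push Not at hcon
    nlinarith
  have hDh : (1 - κ) * d / 2 ≤ D := by linarith
  have hx0 : 0 < (1 - κ) * d / 2 := by positivity
  have hD2 : ((1 - κ) * d / 2) ^ 2 ≤ D ^ 2 := pow_le_pow_left₀ hx0.le hDh 2
  have hD0 : 0 < D := by linarith
  refine ⟨by linarith, ?_, ?_⟩
  · have h4 : C₀ * d ≤ ((1 - κ) * d / 2) ^ 2 / 4 := by
      have h5 : ((1 - κ) * d / 2) ^ 2 / 4 = d * ((1 - κ) ^ 2) * d / 16 := by ring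
      rw [h5]
      have h6 : 16 * C₀ * d ≤ d * (1 - κ) ^ 2 * d := mul_le_mul_of_nonneg_right h2.le hd0.le
      linarith
    linarith
  · rw [div_lt_iff₀ (by positivity)]
    have h5 : ((1 - κ) * d / 2) ^ 2 = d * ((1 - κ) ^ 2) * d / 4 := by ring
    have h6 : 8 * C₀ * d < d * ((1 - κ) ^ 2 * de) * d := mul_lt_mul_of_pos_right h3 hd0
    have h7 : de * ((1 - κ) * d / 2) ^ 2 ≤ de * D ^ 2 := mul_le_mul_of_nonneg_left hD2 hde.le
    rw [h5] at h7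
    nlinarith

theorem LNK (hEEF : EEF_stmt) (hEMB : HX.EMB_stmt) (hUB : HQ.UB_stmt) (hCC : HQ.CC_stmt) : LNK_stmt := by
  intro κ C₀ hκ hκ1 hC
  obtain ⟨dU, hdU⟩ := hUB (κ / 8) (by linarith)
  obtain ⟨de, hde, hcc⟩ := hCC (κ / 8) (by linarith)
  refine ⟨⌈2 * ((dU : ℝ) + 6) / (1 - κ) + 16 * C₀ / (1 - κ) ^ 2 + 8 * C₀ / ((1 - κ) ^ 2 * de)⌉₊ + 1, ?_⟩
  intro d hd L hL hLc hnu f
  have hk : 0 < 1 - κ := by linarith
  have hdr : 2 * ((dU : ℝ) + 6) / (1 - κ) + 16 * C₀ / (1 - κ) ^ 2 + 8 * C₀ / ((1 - κ) ^ 2 * de) < d := by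
    refine lt_of_le_of_lt (Nat.le_ceil _) ?_
    exact_mod_cast (by omega :
      ⌈2 * ((dU : ℝ) + 6) / (1 - κ) + 16 * C₀ / (1 - κ) ^ 2 + 8 * C₀ / ((1 - κ) ^ 2 * de)⌉₊ < d)
  have hd1 : (1 : ℝ) ≤ d := by exact_mod_cast (by omega : 1 ≤ d)
  set D : ℕ := ⌊(1 - κ) * d⌋₊ with hD
  set M : ℕ := ⌊C₀ * d⌋₊ with hM
  have hkd : 0 ≤ (1 - κ) * (d : ℝ) := by positivity
  have hDle : (D : ℝ) ≤ (1 - κ) * d := Nat.floor_le hkd
  have hDge : (1 - κ) * d - 1 ≤ (D : ℝ) := by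
    have := Nat.lt_floor_add_one ((1 - κ) * (d : ℝ))
    rw [← hD] at this
    linarith
  have hMle : (M : ℝ) ≤ C₀ * d := Nat.floor_le (by positivity)
  have hM1 : 1 ≤ M := Nat.le_floor (by push_cast; nlinarith)
  obtain ⟨n1, n2, n3⟩ := LNK_num κ C₀ de d D M dU hκ hκ1 hC hde (Nat.cast_nonneg _) hdr hDge hMle
    (Nat.cast_nonneg _)
  have n1' : dU + 4 ≤ D := by exact_mod_cast n1
  have n2' : 4 * M ≤ D ^ 2 := by
    have : (4 : ℝ) * M ≤ (D : ℝ) ^ 2 := by linarith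
    exact_mod_cast this
  have hM2 : M ≤ 2 ^ D := by
    have := LNK_sq D (by omega)
    omega
  have hM3 : M ≤ 1 + D + D.choose 2 := by
    rw [Nat.choose_two_right]
    have h3 : D * D ≤ 2 * (D * (D - 1)) := by
      have h4 : D ≤ 2 * (D - 1) := by omega
      calc D * D ≤ D * (2 * (D - 1)) := Nat.mul_le_mul_left D h4
        _ = 2 * (D * (D - 1)) := by ring
    rw [sq] at n2'
    omega
  obtain ⟨⟨U, hU, ht⟩, -⟩ := Pool.Agent.helper65.HC.lam_isGreatest D M hM1 hM2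
  have h3 := hdU D (by omega) U (lam D M) (by rw [hU]; exact hM3) ht
  have hDr : (0 : ℝ) < D := by exact_mod_cast (by omega : 0 < D)
  set a : ℝ := min 1 (2 * (U.card : ℝ) / (D : ℝ) ^ 2) with ha
  have ha0 : 0 ≤ a := le_min zero_le_one (by positivity)
  have ha1 : a ≤ 1 := min_le_left _ _
  have ha2 : a < de := by
    refine lt_of_le_of_lt (min_le_right _ _) ?_
    rw [hU]
    exact n3
  have h4 := (hcc a 0 ha0 ha1 le_rfl zero_le_one (by rw [sub_zero, abs_of_nonneg ha0]; exact ha2)).1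
  rw [LNK_c0] at h4
  have h5 := (abs_lt.1 h4).2
  have h6 : lam D M ^ 2 / D ≤ 1 + κ / 4 := by linarith
  rw [div_le_iff₀ hDr] at h6
  have h7 : lam D M ^ 2 ≤ (1 - κ / 2) * d := by
    have h8 : (1 + κ / 4) * (D : ℝ) ≤ (1 + κ / 4) * ((1 - κ) * d) :=
      mul_le_mul_of_nonneg_left hDle (by positivity)
    have h9 : (1 + κ / 4) * ((1 - κ) * (d : ℝ)) ≤ (1 - κ / 2) * d := by
      rw [← mul_assoc]
      apply mul_le_mul_of_nonneg_right _ (by linarith)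
      nlinarith
    linarith
  have h8 : lam D M ≤ √((1 - κ / 2) * d) := Real.le_sqrt_of_sq_le h7
  have hN0 : 0 ≤ N L f := by
    unfold N
    exact Finset.sum_nonneg fun _ _ => sq_nonneg _
  rw [hEEF d L f hL]
  have hS : ∀ x ∈ L, x ⊆ univ.filter fun i : Fin d => {i} ∈ L := by
    intro x hx i hi
    rw [Finset.mem_filter]
    exact ⟨Finset.mem_univ i, hL x hx _ (Finset.singleton_subset_iff.2 hi)⟩
  have hSc : (univ.filter fun i : Fin d => {i} ∈ L).card ≤ D := by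
    rw [← CLC_nu L]
    exact Nat.le_floor hnu
  have hLM : L.card ≤ M := Nat.le_floor hLc
  have h9 := hEMB d D M L _ f hS hSc hLM hM2
  exact h9.trans (mul_le_mul_of_nonneg_right h8 hN0)

end Pool.Agent.helper9.HLR
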