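import Pool.Agent.helper9.HLR.Spec
import Pool.Agent.helper9.HLR.LNK

set_option autoImplicit false

open scoped Classical

namespace Pool.Agent.helper9.HLR

open Finset
open Pool.Agent.helper65.HC (V IsEig IsTop lam)
open Pool.Agent.helper9.HQ (Fam Dn E N Le Eig lk c)
open Pool.Agent.helper9.HX (nu ee up s2 Ef Pf)

theorem FIN_sqrt (d K : ℝ) (hK : 0 ≤ K) (hd : 0 < d) (hKd : K ≤ d) : √d - K / √d ≤ √(d - K) := by
  have hs : 0 < √d := Real.sqrt_pos.2 hd
  have hs2 : √d ^ 2 = d := Real.sq_sqrt hd.le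
  apply Real.le_sqrt_of_sq_le
  have h1 : √d * (K / √d) = K := by field_simp
  have h2 : (K / √d) ^ 2 ≤ K := by
    rw [div_pow, hs2, div_le_iff₀ hd]
    nlinarith
  calc (√d - K / √d) ^ 2 = √d ^ 2 - 2 * (√d * (K / √d)) + (K / √d) ^ 2 := by ring
    _ = d - 2 * K + (K / √d) ^ 2 := by rw [hs2, h1]
    _ ≤ d - K := by linarith

theorem FIN (hDC : HQ.DC_stmt) (hASM : ASM_stmt) (hLBP : LBP_stmt) : FIN_stmt := by
  intro K hK
  obtain ⟨C, d₀, hC, h⟩ := hASM K hK
  refine ⟨max C K, max d₀ (K + 4), lt_max_of_lt_left hC, ?_⟩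
  intro d hd m hm1 hm2
  have hd0 : d₀ ≤ d := (le_max_left _ _).trans hd
  have hdK : K + 4 ≤ d := (le_max_right _ _).trans hd
  have hKr : (1 : ℝ) ≤ K := by exact_mod_cast hK
  have hdr : (K : ℝ) + 4 ≤ d := by exact_mod_cast hdK
  have hdpos : (0 : ℝ) < d := by linarith
  have hsd : 0 < √(d : ℝ) := Real.sqrt_pos.2 hdpos
  have hm2d : m ≤ 2 ^ d := by
    have h1 : (K + 1) * d ≤ d * d := Nat.mul_le_mul_right d (by omega)
    have h2 := LNK_sq d (by omega)
    rw [sq] at h2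
    omega
  have hm0 : 1 ≤ m := by
    have h1 : 1 * 1 ≤ K * d := Nat.mul_le_mul hK (by omega)
    omega
  have hG := Pool.Agent.helper65.HC.lam_isGreatest d m hm0 hm2d
  have hmr : (m : ℝ) < (K + 1) * d := by exact_mod_cast hm2
  have ht0 : 0 < ((K : ℝ) + 1) * d - m := by linarith
  refine ⟨hG, ?_, ?_⟩
  · have h1 := hLBP K d m hK (by omega) hm1 hm2d
    have h2 := FIN_sqrt (d : ℝ) K (by linarith) hdpos (by linarith)
    have h3 : (K : ℝ) / √d ≤ max C K / √d := div_le_div_of_nonneg_right (le_max_right _ _) hsd.le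
    linarith
  · obtain ⟨U, hU, ht⟩ := hG.1
    obtain ⟨A, hA, hAc, f, hN, hE⟩ := hDC d U (lam d m) ht.1
    rw [hU] at hAc
    have h1 := h d hd0 A hA (by rw [hAc]; exact hm2) f
    rw [hN, mul_one, hAc] at h1
    have h2 : C * √d / ((K + 1) * d - m) ≤ max C K * √d / ((K + 1) * d - m) :=
      div_le_div_of_nonneg_right (mul_le_mul_of_nonneg_right (le_max_left _ _) hsd.le) ht0.le
    linarith

end Pool.Agent.helper9.HLR
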