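import Pool.Agent.helper9.HLR.Spec
import Pool.Agent.helper25.HQ.LOC
import Pool.Agent.helper97.HX.BASE

set_option autoImplicit false

open scoped Classical

namespace Pool.Agent.helper9.HLR

open Finset
open Pool.Agent.helper65.HC (V IsEig IsTop lam)
open Pool.Agent.helper9.HQ (Fam Dn E N Le Eig lk c)
open Pool.Agent.helper9.HX (nu ee up s2 Ef Pf)

theorem LOC2 : LOC2_stmt := by
  intro d U l f kap hP hk hl hL
  have hkl : 0 < kap * l := mul_pos hk hl
  have hNpos : 0 < N U f := by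
    have h1 : f ∅ ^ 2 ≤ N U f := by
      unfold N
      exact Finset.single_le_sum (f := fun x => f x ^ 2) (fun _ _ => sq_nonneg _) hP.em
    rw [hP.one] at h1
    linarith
  set r : ℝ := √(N U f) with hr
  have hr0 : 0 < r := Real.sqrt_pos.2 hNpos
  have hr2 : r ^ 2 = N U f := Real.sq_sqrt hNpos.le
  have hE : Eig U l (fun x => f x / r) := by
    refine ⟨fun x => div_nonneg (hP.nn x) hr0.le, ?_, ?_, hP.le⟩
    · unfold N
      have h1 : ∀ x ∈ U, (f x / r) ^ 2 = f x ^ 2 / r ^ 2 := fun x _ => div_pow _ _ _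
      rw [Finset.sum_congr rfl h1, ← Finset.sum_div, hr2]
      exact div_self hNpos.ne'
    · intro x hx
      have h1 := hP.eq x hx
      have h2 : ∑ i ∈ xᶜ, f (insert i x) =
          ∑ i ∈ univ.filter (fun i => i ∉ x ∧ insert i x ∈ U), f (insert i x) := by
        symm
        refine Finset.sum_subset ?_ ?_
        · intro i hi
          rw [Finset.mem_compl]
          exact (Finset.mem_filter.1 hi).2.1
        · intro i hi hi2
          rw [Finset.mem_compl] at hi
          apply hP.out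
          intro h3
          exact hi2 (Finset.mem_filter.2 ⟨Finset.mem_univ i, hi, h3⟩)
      rw [h2] at h1
      rw [← Finset.sum_div, ← Finset.sum_div, ← add_div, ← h1]
      ring
  have h2 : ∀ w : Finset (Fin d), w.card = 2 →
      HQ.LOC_q U f w ≤ 4 / (kap * l) ^ 4 * N U f := by
    intro w hw
    have h1 := HQ.LOC_bound U l _ kap hP.dn hE hk hl hL 2 w hw
    have h3 : (Nat.factorial 2 : ℝ) = 2 := by norm_num [Nat.factorial]
    rw [h3] at h1
    have h4 : √(HQ.LOC_q U (fun x => f x / r) w) ^ 2 ≤ (2 / (kap * l) ^ 2) ^ 2 :=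
      pow_le_pow_left₀ (Real.sqrt_nonneg _) h1 2
    rw [Real.sq_sqrt (HQ.LOC_q_nonneg U _ w)] at h4
    have h5 : HQ.LOC_q U (fun x => f x / r) w = HQ.LOC_q U f w / N U f := by
      unfold HQ.LOC_q
      have h1 : ∀ x ∈ HQ.LOC_X U w, (f x / r) ^ 2 = f x ^ 2 / r ^ 2 := fun x _ => div_pow _ _ _
      rw [Finset.sum_congr rfl h1, ← Finset.sum_div, hr2]
    rw [h5, div_le_iff₀ hNpos] at h4
    refine h4.trans (le_of_eq ?_)
    rw [div_pow, ← pow_mul]
    norm_num
  have hsum : ∑ x ∈ U.filter (fun x => 2 ≤ x.card), f x ^ 2 ≤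
      ∑ w ∈ U.filter (fun w => w.card = 2), HQ.LOC_q U f w := by
    unfold HQ.LOC_q HQ.LOC_X
    have h4 : ∀ w : Finset (Fin d), ∑ x ∈ U.filter (fun x => w ⊆ x), f x ^ 2 =
        ∑ x ∈ U, if w ⊆ x then f x ^ 2 else 0 := fun w => sum_filter _ _
    rw [Finset.sum_congr rfl fun w _ => h4 w, Finset.sum_comm]
    rw [sum_filter]
    refine Finset.sum_le_sum fun x hx => ?_
    have hnn : ∀ w ∈ U.filter (fun w => w.card = 2), 0 ≤ (if w ⊆ x then f x ^ 2 else 0 : ℝ) := by
      intro w _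
      split_ifs
      · exact sq_nonneg _
      · exact le_rfl
    split_ifs with hc
    · obtain ⟨w, hwx, hwc⟩ := Finset.exists_subset_card_eq hc
      have hwU : w ∈ U.filter (fun w => w.card = 2) := mem_filter.2 ⟨hP.dn x hx w hwx, hwc⟩
      have h5 := Finset.single_le_sum hnn hwU
      rw [if_pos hwx] at h5
      exact h5
    · exact Finset.sum_nonneg hnn
  refine hsum.trans ?_
  have h6 : ∑ w ∈ U.filter (fun w => w.card = 2), HQ.LOC_q U f w ≤
      ∑ _w ∈ U.filter (fun w => w.card = 2), 4 / (kap * l) ^ 4 * N U f :=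
    Finset.sum_le_sum fun w hw => h2 w (mem_filter.1 hw).2
  refine h6.trans ?_
  rw [sum_const, nsmul_eq_mul]
  have h7 : ((U.filter (fun w => w.card = 2)).card : ℝ) ≤ (U.card : ℝ) := by
    exact_mod_cast card_filter_le _ _
  have h8 : 0 ≤ 4 / (kap * l) ^ 4 * N U f := by positivity
  calc _ ≤ (U.card : ℝ) * (4 / (kap * l) ^ 4 * N U f) := mul_le_mul_of_nonneg_right h7 h8
    _ = _ := by ring

theorem ONE_num (kap C₀ D l q Lc NN s s2q : ℝ) (hk : 0 < kap) (hC : 1 ≤ C₀) (hD : 64 * C₀ / kap ^ 4 ≤ D)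
    (hD0 : 0 < D) (hLc : Lc ≤ C₀ * D) (hLc0 : 0 ≤ Lc) (hl : D / 2 ≤ l ^ 2)
    (hq : q = 4 * Lc / (kap * l) ^ 4)
    (hN : NN / 2 ≤ 1 + q * NN) (hNN : 0 ≤ NN) (hs2q : s2q ≤ q * NN)
    (hs : s ^ 2 ≤ Lc * s2q) : s ≤ 8 * C₀ / kap ^ 2 := by
  have hk4 : 0 < kap ^ 4 := by positivity
  have h1 : kap ^ 4 * (D ^ 2 / 4) ≤ (kap * l) ^ 4 := by
    have h2 : (D / 2) ^ 2 ≤ (l ^ 2) ^ 2 := pow_le_pow_left₀ (by positivity) hl 2
    calc kap ^ 4 * (D ^ 2 / 4) = kap ^ 4 * (D / 2) ^ 2 := by ring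
      _ ≤ kap ^ 4 * (l ^ 2) ^ 2 := mul_le_mul_of_nonneg_left h2 hk4.le
      _ = (kap * l) ^ 4 := by ring
  have hden : 0 < kap ^ 4 * (D ^ 2 / 4) := by positivity
  have hq0 : 0 ≤ q := by
    rw [hq]
    exact div_nonneg (by positivity) (hden.le.trans h1)
  have hq1 : q ≤ 16 * C₀ / (kap ^ 4 * D) := by
    rw [hq]
    have h2 : 4 * Lc / (kap * l) ^ 4 ≤ 4 * (C₀ * D) / (kap ^ 4 * (D ^ 2 / 4)) := by
      apply div_le_div₀ (by positivity) (by linarith) hden h1
    refine h2.trans (le_of_eq ?_)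
    field_simp
    norm_num
  have hq2 : q ≤ 1 / 4 := by
    refine hq1.trans ?_
    rw [div_le_div_iff₀ (by positivity) (by norm_num)]
    rw [div_le_iff₀ hk4] at hD
    linarith
  have hN4 : NN ≤ 4 := by nlinarith
  have h3 : s ^ 2 ≤ (8 * C₀ / kap ^ 2) ^ 2 := by
    have h4 : s2q ≤ 4 * q := hs2q.trans (by nlinarith)
    calc s ^ 2 ≤ Lc * s2q := hs
      _ ≤ Lc * (4 * q) := mul_le_mul_of_nonneg_left h4 hLc0
      _ ≤ (C₀ * D) * (4 * q) := mul_le_mul_of_nonneg_right hLc (by positivity)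
      _ ≤ (C₀ * D) * (4 * (16 * C₀ / (kap ^ 4 * D))) :=
          mul_le_mul_of_nonneg_left (by linarith) (by positivity)
      _ = (8 * C₀ / kap ^ 2) ^ 2 := by
          field_simp
          norm_num
  exact le_of_sq_le_sq h3 (by positivity)

theorem ONE (hLOC2 : LOC2_stmt) (hEQ1 : HX.EQ1_stmt) : ONE_stmt := by
  intro kap C₀ hk hC
  refine ⟨16 * C₀ / kap ^ 2, ⌈64 * C₀ / kap ^ 4⌉₊ + 1, by positivity, ?_⟩
  intro d hd L l f hP hLc hld hlk
  have hd1 : (1 : ℝ) ≤ d := by exact_mod_cast (by omega : 1 ≤ d)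
  have hdC : 64 * C₀ / kap ^ 4 ≤ d :=
    (Nat.le_ceil _).trans (by exact_mod_cast (by omega : ⌈64 * C₀ / kap ^ 4⌉₊ ≤ d))
  obtain ⟨hl0, -, -, -, hl2, -⟩ := hEQ1 d L l f hP
  have hlpos : 0 < l := by
    rcases hl0.eq_or_lt with h | h
    · exfalso
      rw [← h] at hld
      linarith
    · exact h
  have hloc := hLOC2 d L l f kap hP hk hlpos hlk
  have hpar := mul_left_cancel₀ hlpos.ne' (HX.BASE_par hP)
  have hNsum : N L f = ∑ x ∈ univ.filter (fun x : Finset (Fin d) => x.card % 2 = 0), f x ^ 2 +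
      ∑ x ∈ univ.filter (fun x : Finset (Fin d) => x.card % 2 = 1), f x ^ 2 := by
    have h1 : N L f = ∑ x : Finset (Fin d), f x ^ 2 := by
      unfold N
      refine Finset.sum_subset (Finset.subset_univ L) fun x _ hx => ?_
      rw [hP.out x hx]
      ring
    rw [h1, ← Finset.sum_filter_add_sum_filter_not univ (fun x : Finset (Fin d) => x.card % 2 = 0)]
    congr 1
    refine Finset.sum_congr ?_ fun _ _ => rfl
    ext x
    rw [Finset.mem_filter, Finset.mem_filter]
    constructor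
    · rintro ⟨h2, h3⟩
      exact ⟨h2, by omega⟩
    · rintro ⟨h2, h3⟩
      exact ⟨h2, by omega⟩
  have heven : ∑ x ∈ univ.filter (fun x : Finset (Fin d) => x.card % 2 = 0), f x ^ 2 ≤
      1 + ∑ x ∈ L.filter (fun x => 2 ≤ x.card), f x ^ 2 := by
    have h1 : ∑ x ∈ L.filter (fun x => 2 ≤ x.card), f x ^ 2 =
        ∑ x : Finset (Fin d), if x ∈ L ∧ 2 ≤ x.card then f x ^ 2 else 0 := by
      rw [← Finset.sum_filter]
      refine Finset.sum_congr ?_ fun _ _ => rfl
      ext x
      simp only [Finset.mem_filter, Finset.mem_univ, true_and]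
    have h2 : (1 : ℝ) = ∑ x : Finset (Fin d), if x = ∅ then f x ^ 2 else 0 := by
      rw [Finset.sum_ite_eq' univ ∅ (fun x => f x ^ 2), if_pos (Finset.mem_univ _), hP.one]
      norm_num
    rw [h1]
    rw [Finset.sum_filter]
    nth_rewrite 1 [h2]
    rw [← Finset.sum_add_distrib]
    refine Finset.sum_le_sum fun x _ => ?_
    have hsq := sq_nonneg (f x)
    by_cases hx : x ∈ L
    · by_cases hx0 : x = ∅
      · have h4 : (if x ∈ L ∧ 2 ≤ x.card then f x ^ 2 else 0) ≥ (0 : ℝ) := by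
          split_ifs
          · exact hsq
          · exact le_refl _
        rw [if_pos hx0]
        have h5 : (if x.card % 2 = 0 then f x ^ 2 else 0) ≤ f x ^ 2 := by
          split_ifs
          · exact le_refl _
          · exact hsq
        linarith
      · rw [if_neg hx0, zero_add]
        by_cases hc : 2 ≤ x.card
        · have h8 : (if x ∈ L ∧ 2 ≤ x.card then f x ^ 2 else 0) = f x ^ 2 := if_pos ⟨hx, hc⟩
          rw [h8]
          split_ifs
          · exact le_refl _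
          · exact hsq
        · have h6 : 0 < x.card := Finset.card_pos.2 (Finset.nonempty_iff_ne_empty.2 hx0)
          have h7 : ¬ (x.card % 2 = 0) := by omega
          rw [if_neg h7]
          split_ifs
          · exact hsq
          · exact le_refl _
    · rw [hP.out x hx]
      simp
  set q : ℝ := 4 * L.card / (kap * l) ^ 4 with hq
  have hN : N L f / 2 ≤ 1 + q * N L f := by
    have h1 : N L f / 2 = ∑ x ∈ univ.filter (fun x : Finset (Fin d) => x.card % 2 = 0), f x ^ 2 := by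
      rw [hNsum, ← hpar]
      ring
    rw [h1]
    linarith
  have hNN : 0 ≤ N L f := by
    unfold N
    exact Finset.sum_nonneg fun _ _ => sq_nonneg _
  have hs2q : HX.u2 L f ≤ q * N L f := by
    refine le_trans ?_ hloc
    unfold HX.u2
    refine Finset.sum_le_sum_of_subset_of_nonneg ?_ fun _ _ _ => sq_nonneg _
    intro x hx
    rw [Finset.mem_filter] at hx ⊢
    exact ⟨hx.1, by omega⟩
  have hs : s2 L f ^ 2 ≤ L.card * HX.u2 L f := by
    unfold s2 HX.u2
    refine (sq_sum_le_card_mul_sum_sq).trans ?_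
    refine mul_le_mul_of_nonneg_right ?_ (Finset.sum_nonneg fun _ _ => sq_nonneg _)
    exact_mod_cast Finset.card_filter_le _ _
  have hfin := ONE_num kap C₀ d l q L.card (N L f) (s2 L f) (HX.u2 L f) hk hC hdC (by linarith) hLc
    (Nat.cast_nonneg _) hld rfl hN hNN hs2q hs
  rw [hl2]
  have h9 : 16 * C₀ / kap ^ 2 = 2 * (8 * C₀ / kap ^ 2) := by ring
  rw [h9]
  linarith

theorem SHL (hLNK : LNK_stmt) (hONE : ONE_stmt) (hMON : HX.MON_stmt) (hEQ1 : HX.EQ1_stmt) : SHL_stmt := by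
  intro κ C₀ hκ hκ2 hC
  set ρ : ℝ := √((1 - κ / 2) / (1 - κ / 4)) with hρ
  have hρ2 : ρ ^ 2 = (1 - κ / 2) / (1 - κ / 4) :=
    Real.sq_sqrt (div_nonneg (by linarith) (by linarith))
  have hρ0 : 0 ≤ ρ := Real.sqrt_nonneg _
  have hρ1 : ρ < 1 := by
    have h1 : ρ ^ 2 < 1 := by
      rw [hρ2, div_lt_one (by linarith)]
      linarith
    nlinarith
  obtain ⟨R, d₁, hR, hone⟩ := hONE (1 - ρ) C₀ (by linarith) hC
  obtain ⟨d₂, hlnk⟩ := hLNK κ C₀ hκ (by linarith) hC
  refine ⟨R, max d₁ d₂, hR, ?_⟩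
  intro d hd L hL hLc hlk g
  have hN0 : ∀ (W : Fam d), 0 ≤ N W g := fun W => by
    unfold N
    exact Finset.sum_nonneg fun _ _ => sq_nonneg _
  rcases Finset.eq_empty_or_nonempty L with h0 | hne
  · rw [h0]
    unfold E N
    simp
  · obtain ⟨l, f, hP⟩ := hMON d L hL hne
    obtain ⟨hl0, -, -, -, -, -⟩ := hEQ1 d L l f hP
    have hfin : l ≤ √(max (nu L + R) ((1 - κ / 4) * d)) → E L g ≤ √(max (nu L + R) ((1 - κ / 4) * d)) * N L g := by
      intro h
      exact (hP.le g).trans (mul_le_mul_of_nonneg_right h (hN0 L))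
    apply hfin
    apply Real.le_sqrt_of_sq_le
    rcases le_or_gt (l ^ 2) ((1 - κ / 4) * d) with h | h
    · exact h.trans (le_max_right _ _)
    · refine le_trans ?_ (le_max_left _ _)
      have hd0 : (0 : ℝ) ≤ d := Nat.cast_nonneg d
      refine hone d ((le_max_left _ _).trans hd) L l f hP hLc (by nlinarith) ?_
      intro i
      have hDn : Dn (lk i L) := by
        intro x hx y hyx
        unfold lk at hx ⊢
        rw [Finset.mem_filter] at hx ⊢
        exact ⟨hL x hx.1 y hyx, fun h => hx.2.1 (hyx h),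
          hL _ hx.2.2 _ (Finset.insert_subset_insert i hyx)⟩
      have hcard : ((lk i L).card : ℝ) ≤ C₀ * d := by
        refine le_trans ?_ hLc
        unfold lk
        exact_mod_cast Finset.card_filter_le _ _
      have h1 := hlnk d ((le_max_right _ _).trans hd) (lk i L) hDn hcard (hlk i)
      intro u
      refine (h1 u).trans (mul_le_mul_of_nonneg_right ?_ ?_)
      · have e1 : 1 - (1 - ρ) = ρ := by ring
        rw [e1]
        apply Real.sqrt_le_iff.2
        refine ⟨mul_nonneg hρ0 hl0, ?_⟩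
        rw [mul_pow, hρ2]
        have h2 : (1 - κ / 2) * d = (1 - κ / 2) / (1 - κ / 4) * ((1 - κ / 4) * d) := by
          have h3 : 1 - κ / 4 ≠ 0 := by linarith
          rw [← mul_assoc, div_mul_cancel₀ _ h3]
        rw [h2]
        exact mul_le_mul_of_nonneg_left h.le (div_nonneg (by linarith) (by linarith))
      · unfold N
        exact Finset.sum_nonneg fun _ _ => sq_nonneg _

end Pool.Agent.helper9.HLR
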