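import Pool.Agent.helper9.HLR.Spec

set_option autoImplicit false

open scoped Classical

namespace Pool.Agent.helper9.HLR

open Finset
open Pool.Agent.helper65.HC (V IsEig IsTop lam)
open Pool.Agent.helper9.HQ (Fam Dn E N Le Eig lk c)
open Pool.Agent.helper9.HX (nu ee up s2 Ef Pf)

theorem QFM_sum {d : ℕ} (S : Finset (Fin d)) (F : Finset (Fin d) → ℝ) :
    ∑ w ∈ S.powerset, ∑ j ∈ w, (F w + F (w.erase j)) = S.card * ∑ w ∈ S.powerset, F w := by
  have h1 : ∑ w ∈ S.powerset, ∑ j ∈ w, F (w.erase j) = ∑ w ∈ S.powerset, ∑ _j ∈ S \ w, F w := by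
    rw [Finset.sum_sigma', Finset.sum_sigma']
    refine Finset.sum_nbij' (fun p => ⟨p.1.erase p.2, p.2⟩) (fun p => ⟨insert p.2 p.1, p.2⟩) ?_ ?_ ?_ ?_ ?_
    · rintro ⟨w, j⟩ hp
      rw [mem_sigma, mem_powerset] at hp
      rw [mem_sigma, mem_powerset, mem_sdiff]
      exact ⟨(erase_subset _ _).trans hp.1, hp.1 hp.2, notMem_erase _ _⟩
    · rintro ⟨w, j⟩ hp
      rw [mem_sigma, mem_powerset, mem_sdiff] at hp
      rw [mem_sigma, mem_powerset]
      exact ⟨insert_subset hp.2.1 hp.1, mem_insert_self _ _⟩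
    · rintro ⟨w, j⟩ hp
      rw [mem_sigma] at hp
      have h : j ∈ w := hp.2
      simp only [insert_erase h]
    · rintro ⟨w, j⟩ hp
      rw [mem_sigma, mem_powerset, mem_sdiff] at hp
      have h : j ∉ w := hp.2.2
      simp only [erase_insert h]
    · rintro ⟨w, j⟩ _
      rfl
  have h2 : ∑ w ∈ S.powerset, ∑ j ∈ w, (F w + F (w.erase j)) =
      ∑ w ∈ S.powerset, ∑ _j ∈ w, F w + ∑ w ∈ S.powerset, ∑ j ∈ w, F (w.erase j) := by
    rw [← Finset.sum_add_distrib]
    exact Finset.sum_congr rfl fun w _ => Finset.sum_add_distrib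
  rw [h2, h1, ← Finset.sum_add_distrib, Finset.mul_sum]
  refine Finset.sum_congr rfl fun w hw => ?_
  rw [mem_powerset] at hw
  rw [Finset.sum_const, Finset.sum_const, nsmul_eq_mul, nsmul_eq_mul, ← add_mul, ← Nat.cast_add]
  congr 2
  rw [add_comm, Finset.card_sdiff_add_card_eq_card hw]

theorem QFM_B {d : ℕ} (S : Finset (Fin d)) (B : Fam d) (hB : ∀ w ∈ B, w ⊆ S) (n : Finset (Fin d) → ℝ) :
    2 * ∑ w ∈ S.powerset, ∑ j ∈ w, (if w ∈ B ∧ w.erase j ∈ B then n w * n (w.erase j) else 0) = Ef B n := by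
  unfold Ef
  congr 1
  have h1 : ∀ w ∈ S.powerset, (∑ j ∈ w, (if w ∈ B ∧ w.erase j ∈ B then n w * n (w.erase j) else 0)) =
      if w ∈ B then ∑ j ∈ w, (if w.erase j ∈ B then n w * n (w.erase j) else 0) else 0 := by
    intro w _
    by_cases h : w ∈ B
    · rw [if_pos h]
      refine Finset.sum_congr rfl fun j _ => ?_
      by_cases h2 : w.erase j ∈ B
      · rw [if_pos ⟨h, h2⟩, if_pos h2]
      · rw [if_neg (fun h3 => h2 h3.2), if_neg h2]
    · rw [if_neg h]
      exact Finset.sum_eq_zero fun j _ => if_neg fun h3 => h h3.1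
  rw [Finset.sum_congr rfl h1, ← Finset.sum_filter]
  refine Finset.sum_congr ?_ fun _ _ => rfl
  ext w
  rw [mem_filter, mem_powerset]
  exact ⟨fun h => h.2, fun h => ⟨hB w h, h⟩⟩

theorem QFM (hEMB : HX.EMB_stmt) : QFM_stmt := by
  intro d K S n ell P hK hS hn hell
  have hKr : (1 : ℝ) ≤ K := by exact_mod_cast hK
  have hSr : (S.card : ℝ) ≤ K := by exact_mod_cast hS
  have hlam : 0 ≤ lam K K := by
    have h1 := hEMB K K K ({∅} : Fam K) ∅ (fun _ => 1) (by simp) (by simp) (by simpa using hK)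
      Nat.lt_two_pow_self.le
    unfold Ef N at h1
    simpa using h1
  have hell2 : ∑ w ∈ S.powerset, ell w * n w ^ 2 ≤ P * ∑ w ∈ S.powerset, n w ^ 2 := by
    rw [Finset.mul_sum]
    refine Finset.sum_le_sum fun w hw => ?_
    exact mul_le_mul_of_nonneg_right (hell w (mem_powerset.1 hw)) (sq_nonneg _)
  have hN0 : 0 ≤ ∑ w ∈ S.powerset, n w ^ 2 := Finset.sum_nonneg fun w _ => sq_nonneg _
  refine ⟨?_, ?_, hlam⟩
  · intro B g hBK hBS hBg hg
    have hg0 : 0 < g := by linarith
    set θ : ℝ := 2 * K / g with hθ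
    have hθ0 : 0 < θ := by rw [hθ]; positivity
    have hθ1 : θ ≤ 1 := by
      rw [hθ, div_le_one hg0]
      linarith
    have hθi : 1 ≤ θ⁻¹ := (one_le_inv₀ hθ0).2 hθ1
    set t : Finset (Fin d) → ℝ := fun w => if w ∈ B then θ else θ⁻¹ with ht
    have hpt : ∀ w j, 2 * (n w * n (w.erase j)) ≤
        2 * (if w ∈ B ∧ w.erase j ∈ B then n w * n (w.erase j) else 0) +
          (t w * n w ^ 2 + t (w.erase j) * n (w.erase j) ^ 2) := by
      intro w j
      have ha := hn w
      have hb := hn (w.erase j)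
      set a := n w
      set b := n (w.erase j)
      have hab : 2 * (a * b) ≤ θ * a ^ 2 + θ⁻¹ * b ^ 2 := by
        have h1 : 0 ≤ θ⁻¹ * (θ * a - b) ^ 2 := by positivity
        have h2 : θ⁻¹ * (θ * a - b) ^ 2 = θ * a ^ 2 - 2 * (a * b) + θ⁻¹ * b ^ 2 := by
          field_simp
          ring
        linarith
      have hab2 : 2 * (a * b) ≤ θ⁻¹ * a ^ 2 + θ * b ^ 2 := by
        have h1 : 0 ≤ θ⁻¹ * (a - θ * b) ^ 2 := by positivity
        have h2 : θ⁻¹ * (a - θ * b) ^ 2 = θ⁻¹ * a ^ 2 - 2 * (a * b) + θ * b ^ 2 := by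
          field_simp
          ring
        linarith
      by_cases h1 : w ∈ B
      · by_cases h2 : w.erase j ∈ B
        · have e1 : t w = θ := if_pos h1
          have e2 : t (w.erase j) = θ := if_pos h2
          rw [if_pos ⟨h1, h2⟩, e1, e2]
          have : 0 ≤ θ * a ^ 2 + θ * b ^ 2 := by positivity
          linarith
        · have e1 : t w = θ := if_pos h1
          have e2 : t (w.erase j) = θ⁻¹ := if_neg h2
          rw [if_neg (fun h3 => h2 h3.2), e1, e2]
          linarith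
      · by_cases h2 : w.erase j ∈ B
        · have e1 : t w = θ⁻¹ := if_neg h1
          have e2 : t (w.erase j) = θ := if_pos h2
          rw [if_neg (fun h3 => h1 h3.1), e1, e2]
          linarith
        · have e1 : t w = θ⁻¹ := if_neg h1
          have e2 : t (w.erase j) = θ⁻¹ := if_neg h2
          rw [if_neg (fun h3 => h1 h3.1), e1, e2]
          have h3 : a ^ 2 + b ^ 2 ≤ θ⁻¹ * (a ^ 2 + b ^ 2) := le_mul_of_one_le_left (by positivity) hθi
          nlinarith [sq_nonneg (a - b)]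
    have h1 : 2 * ∑ w ∈ S.powerset, ∑ j ∈ w, n w * n (w.erase j) ≤
        Ef B n + S.card * ∑ w ∈ S.powerset, t w * n w ^ 2 := by
      rw [← QFM_B S B hBS n, ← QFM_sum S (fun w => t w * n w ^ 2), Finset.mul_sum, Finset.mul_sum,
        ← Finset.sum_add_distrib]
      refine Finset.sum_le_sum fun w _ => ?_
      rw [Finset.mul_sum, Finset.mul_sum, ← Finset.sum_add_distrib]
      exact Finset.sum_le_sum fun j _ => hpt w j
    have h2 : Ef B n ≤ lam K K * N B n := hEMB d K K B S n hBS hS hBK Nat.lt_two_pow_self.le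
    have h3 : N B n = ∑ w ∈ S.powerset, if w ∈ B then n w ^ 2 else 0 := by
      unfold N
      rw [← Finset.sum_filter]
      refine Finset.sum_congr ?_ fun _ _ => rfl
      ext w
      rw [mem_filter, mem_powerset]
      exact ⟨fun h => ⟨hBS w h, h⟩, fun h => h.2⟩
    have h4 : (S.card : ℝ) * ∑ w ∈ S.powerset, t w * n w ^ 2 ≤ K * ∑ w ∈ S.powerset, t w * n w ^ 2 := by
      refine mul_le_mul_of_nonneg_right hSr (Finset.sum_nonneg fun w _ => ?_)
      have : 0 ≤ t w := by
        show 0 ≤ (if w ∈ B then θ else θ⁻¹)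
        split_ifs
        · exact hθ0.le
        · exact inv_nonneg.2 hθ0.le
      exact mul_nonneg this (sq_nonneg _)
    have hKθ : (K : ℝ) * θ⁻¹ = g / 2 := by
      rw [hθ]
      have : (K : ℝ) ≠ 0 := by linarith
      field_simp
    have hKθ2 : (K : ℝ) * θ ≤ 4 * K ^ 2 / g := by
      rw [hθ]
      have : (K : ℝ) * (2 * K / g) = 2 * K ^ 2 / g := by ring
      rw [this]
      refine div_le_div_of_nonneg_right ?_ hg0.le
      nlinarith
    have h5 : ∑ w ∈ S.powerset, ell w * n w ^ 2 + lam K K * N B n +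
        K * ∑ w ∈ S.powerset, t w * n w ^ 2 ≤ (P + lam K K + 4 * K ^ 2 / g) * ∑ w ∈ S.powerset, n w ^ 2 := by
      rw [h3, Finset.mul_sum, Finset.mul_sum, Finset.mul_sum, ← Finset.sum_add_distrib,
        ← Finset.sum_add_distrib]
      refine Finset.sum_le_sum fun w hw => ?_
      rw [mem_powerset] at hw
      by_cases hwB : w ∈ B
      · have e1 : t w = θ := if_pos hwB
        rw [if_pos hwB, e1]
        have h6 := mul_le_mul_of_nonneg_right (hell w hw) (sq_nonneg (n w))
        have h7 := mul_le_mul_of_nonneg_right hKθ2 (sq_nonneg (n w))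
        nlinarith
      · have e1 : t w = θ⁻¹ := if_neg hwB
        rw [if_neg hwB, e1]
        have h6 := mul_le_mul_of_nonneg_right (hBg w hw hwB) (sq_nonneg (n w))
        have h7 : (K : ℝ) * (θ⁻¹ * n w ^ 2) = g / 2 * n w ^ 2 := by rw [← mul_assoc, hKθ]
        rw [h7]
        have h8 : 0 ≤ lam K K * n w ^ 2 := mul_nonneg hlam (sq_nonneg _)
        have h9 : 0 ≤ 4 * (K : ℝ) ^ 2 / g * n w ^ 2 := by positivity
        have h10 : 0 ≤ g * n w ^ 2 := by positivity
        nlinarith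
    linarith
  · have h1 : 2 * ∑ w ∈ S.powerset, ∑ j ∈ w, n w * n (w.erase j) ≤
        S.card * ∑ w ∈ S.powerset, n w ^ 2 := by
      rw [← QFM_sum S (fun w => n w ^ 2), Finset.mul_sum]
      refine Finset.sum_le_sum fun w _ => ?_
      rw [Finset.mul_sum]
      refine Finset.sum_le_sum fun j _ => ?_
      nlinarith [sq_nonneg (n w - n (w.erase j))]
    have h2 : (S.card : ℝ) * ∑ w ∈ S.powerset, n w ^ 2 ≤ K * ∑ w ∈ S.powerset, n w ^ 2 :=
      mul_le_mul_of_nonneg_right hSr hN0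
    rw [add_mul]
    linarith

end Pool.Agent.helper9.HLR
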