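import Pool.Agent.helper9.HLR.Spec

set_option autoImplicit false

open scoped Classical

namespace Pool.Agent.helper9.HLR

open Finset
open Pool.Agent.helper65.HC (V IsEig IsTop lam)
open Pool.Agent.helper9.HQ (Fam Dn E N Le Eig lk c)
open Pool.Agent.helper9.HX (nu ee up s2 Ef Pf)

theorem SPL_mem {d : ℕ} (S w : Finset (Fin d)) (U : Fam d) (x : Finset (Fin d)) :
    x ∈ cel S w U ↔ x ∈ U ∧ x ∩ S = w := by
  unfold cel
  rw [Finset.mem_filter]

theorem SPL_cs {d : ℕ} (U : Fam d) (S w : Finset (Fin d)) (f : Finset (Fin d) → ℝ) (hU : Dn U)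
    (j : Fin d) (hj : j ∈ w) :
    ∑ x ∈ cel S w U, f x * f (x.erase j) ≤ √(N (cel S w U) f) * √(N (cel S (w.erase j) U) f) := by
  have h1 := Real.sum_mul_le_sqrt_mul_sqrt (cel S w U) f (fun x => f (x.erase j))
  refine h1.trans ?_
  refine mul_le_mul_of_nonneg_left (Real.sqrt_le_sqrt ?_) (Real.sqrt_nonneg _)
  have hjx : ∀ x ∈ cel S w U, j ∈ x := by
    intro x hx
    rw [SPL_mem] at hx
    have h2 : j ∈ x ∩ S := by rw [hx.2]; exact hj
    exact (Finset.mem_inter.1 h2).1
  have hinj : Set.InjOn (fun x : Finset (Fin d) => x.erase j) (cel S w U : Set (Finset (Fin d))) := by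
    intro x hx y hy hxy
    have hxy' : x.erase j = y.erase j := hxy
    rw [← insert_erase (hjx x hx), hxy', insert_erase (hjx y hy)]
  have h2 : ∑ x ∈ cel S w U, f (x.erase j) ^ 2 =
      ∑ y ∈ (cel S w U).image (fun x => x.erase j), f y ^ 2 :=
    (Finset.sum_image (f := fun y => f y ^ 2) hinj).symm
  rw [h2]
  unfold N
  refine Finset.sum_le_sum_of_subset_of_nonneg ?_ fun _ _ _ => sq_nonneg _
  intro y hy
  rw [mem_image] at hy
  obtain ⟨x, hx, rfl⟩ := hy
  rw [SPL_mem] at hx ⊢
  refine ⟨hU x hx.1 _ (erase_subset _ _), ?_⟩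
  rw [← hx.2]
  ext i
  simp only [Finset.mem_inter, Finset.mem_erase]
  tauto

theorem SPL : SPL_stmt := by
  intro d U S f hU
  have hmap : ∀ x ∈ U, x ∩ S ∈ S.powerset := fun x _ => Finset.mem_powerset.2 Finset.inter_subset_right
  have hfib : ∀ F : Finset (Fin d) → ℝ, ∑ x ∈ U, F x = ∑ w ∈ S.powerset, ∑ x ∈ cel S w U, F x := by
    intro F
    unfold cel
    exact (Finset.sum_fiberwise_of_maps_to hmap F).symm
  refine ⟨?_, ?_⟩
  · unfold N
    exact hfib (fun x => f x ^ 2)
  · have h1 : E U f = ∑ w ∈ S.powerset, 2 * ∑ x ∈ cel S w U, ∑ i ∈ x, f x * f (x.erase i) := by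
      unfold E
      rw [hfib, Finset.mul_sum]
    rw [h1, Finset.mul_sum, ← Finset.sum_add_distrib]
    refine Finset.sum_le_sum fun w hw => ?_
    rw [Finset.mem_powerset] at hw
    have h2 : ∑ x ∈ cel S w U, ∑ i ∈ x, f x * f (x.erase i) =
        ∑ x ∈ cel S w U, ∑ i ∈ x, (if x.erase i ∈ cel S w U then f x * f (x.erase i) else 0) +
          ∑ j ∈ w, ∑ x ∈ cel S w U, f x * f (x.erase j) := by
      rw [Finset.sum_comm (s := w), ← Finset.sum_add_distrib]
      refine Finset.sum_congr rfl fun x hx => ?_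
      rw [SPL_mem] at hx
      have hwx : w ⊆ x := by
        rw [← hx.2]
        exact Finset.inter_subset_left
      rw [← Finset.sum_sdiff hwx (f := fun i => f x * f (x.erase i))]
      congr 1
      rw [← Finset.sum_sdiff hwx (f := fun i => if x.erase i ∈ cel S w U then f x * f (x.erase i) else 0)]
      have h3 : ∑ i ∈ w, (if x.erase i ∈ cel S w U then f x * f (x.erase i) else 0) = 0 := by
        refine Finset.sum_eq_zero fun i hi => if_neg fun h => ?_
        rw [SPL_mem] at h
        have h4 : i ∈ x.erase i ∩ S := by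
          rw [h.2]
          exact hi
        exact (Finset.mem_erase.1 (Finset.mem_inter.1 h4).1).1 rfl
      rw [h3, add_zero]
      refine Finset.sum_congr rfl fun i hi => ?_
      rw [Finset.mem_sdiff] at hi
      rw [if_pos]
      rw [SPL_mem]
      refine ⟨hU x hx.1 _ (Finset.erase_subset _ _), ?_⟩
      rw [← hx.2]
      ext k
      simp only [Finset.mem_inter, Finset.mem_erase]
      constructor
      · rintro ⟨⟨_, h5⟩, h6⟩
        exact ⟨h5, h6⟩
      · rintro ⟨h5, h6⟩
        refine ⟨⟨?_, h5⟩, h6⟩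
        intro h7
        apply hi.2
        rw [← h7, ← hx.2]
        exact Finset.mem_inter.2 ⟨h5, h6⟩
    rw [h2]
    unfold Ef
    have h3 : ∑ j ∈ w, ∑ x ∈ cel S w U, f x * f (x.erase j) ≤
        ∑ j ∈ w, √(N (cel S w U) f) * √(N (cel S (w.erase j) U) f) :=
      Finset.sum_le_sum fun j hj => SPL_cs U S w f hU j hj
    linarith

end Pool.Agent.helper9.HLR
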