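import Pool.Agent.helper9.HX.Spec

/-!
# Project hlr (MP_d9e35a_co): the second term of `λ_d(m)` in the whole linear range `d ≤ m ≤ C d`

THEOREM. For every `K ≥ 1` there are `C`, `d₀` such that for `d ≥ d₀` and `K d ≤ m < (K+1) d`
`λ_K(K) - C/√d ≤ λ_d(m) - √d ≤ λ_K(K) + C √d/((K+1) d - m)`.
(So `λ_d(m) = √d + λ_K(K) + O(1/√d)` away from the multiples of `d`: the second term is a staircase whose steps are the solution of the finite problem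
with `K` vertices.)

Idea of the upper bound. `U` down-set, `m < (K+1) d`. The core `cor K U` = the `w ∈ U` with at least `(1 - 1/(2(K+2))) d` up-neighbours has at most `K + 1` members, and if it
has `K + 1` one of them has at most `d - t/(K+1) + K + 1` up-neighbours, `t = (K+1) d - m`. Let `S` be the union of the core, `|S| ≤ K`, and cut `U` into the cells `x ∩ S = w`, `w ⊆ S`.
The graph of a cell has top eigenvalue `≤ √(d + R)` (`w` in the core), and `≤ √(d + R) - g` for all but `K` of the `w`, `g ≈ t/√d`. Two neighbouring cells are joined by an (incomplete)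
matching. So the top eigenvalue of `U` is at most that of the `2^|S|`-matrix with diagonal `ℓ_w` and the adjacency matrix of the cube of `S`, i.e. `√(d + R) + λ_K(K) + 4 K²/g`.

Rules: file `Pool/Agent/<seat>/HLR/XX.lean`, `import Pool.Agent.helper9.HLR.Spec`, `namespace Pool.Agent.helper9.HLR`,
`theorem XX (h : YY_stmt) ... : XX_stmt` (exact line in the lock note). Other rows only as hypotheses, nobody waits.
Auxiliary lemmas prefixed `XX_`. No double quotes, no `convert`, no `congr!`. Paper: `/team-store/MP_d9e35a_linear_helper9.md`.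
-/

set_option autoImplicit false
set_option linter.unusedVariables false

open scoped Classical

namespace Pool.Agent.helper9.HLR

open Finset
open Pool.Agent.helper65.HC (V IsEig IsTop lam)
open Pool.Agent.helper9.HQ (Fam Dn E N Le Eig lk c)
open Pool.Agent.helper9.HX (nu ee up s2 Ef Pf)

noncomputable section

/-! ## Definitions (`nu`, `up`, `s2`, `Ef`, `Pf` are in `Pool.Agent.helper9.HX.Spec`) -/

/-- the core -/
def cor (K : ℕ) {d : ℕ} (U : Fam d) : Fam d := U.filter fun w => (1 - 1 / (2 * ((K : ℝ) + 2))) * d ≤ (up w U : ℝ)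

/-- the cell of `w` with respect to `S` -/
def cel {d : ℕ} (S w : Finset (Fin d)) (U : Fam d) : Fam d := U.filter fun x => x ∩ S = w

/-- the cell of `w`, moved to the complement of `S` -/
def Lc {d : ℕ} (S w : Finset (Fin d)) (U : Fam d) : Fam d := univ.filter fun y => Disjoint y S ∧ y ∪ w ∈ U

/-! ## Rows -/

/-- EEF (short). Proof. For a down-set all `x.erase i`, `x ∈ U`, are in `U`. -/
def EEF_stmt : Prop := ∀ (d : ℕ) (U : Fam d) (f : Finset (Fin d) → ℝ), Dn U → E U f = Ef U f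

/-- LNK (medium; uses EEF, `HX.EMB_stmt`, `HQ.UB_stmt`, `HQ.CC_stmt`). Down-sets with few singletons.
Proof. `S = {i : {i} ∈ L}`, `|S| = nu L`, all members of `L` are subsets of `S`. `D = ⌊(1-κ) d⌋ ≥ |S|`, `M = ⌊C₀ d⌋ ≥ |L|`; for large `d`: `D + 1 ≤ M ≤ 1 + D + C(D,2)`, `M ≤ 2 ^ D`, and `2 M/D²` is small, so
`c (min 1 (2M/D²)) ≤ 1 + κ/8` (`c 0 = 1`, CC). UB with `eps = κ/8` for an optimal set (`Pool.Agent.helper65.HC.lam_isGreatest`): `lam D M ^ 2 ≤ D (1 + κ/4) ≤ (1-κ)(1+κ/4) d ≤ (1 - κ/2) d`. EMB: `Ef L f ≤ lam D M * N L f`; EEF.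
(Compare `Pool/Agent/helper90/HX/UBX.lean` and `Pool/Agent/helper89/HX/OPH.lean`.) -/
def LNK_stmt : Prop := ∀ κ C₀ : ℝ, 0 < κ → κ < 1 → 1 ≤ C₀ → ∃ d₀ : ℕ, ∀ d ≥ d₀, ∀ L : Fam d, Dn L → (L.card : ℝ) ≤ C₀ * d →
  (nu L : ℝ) ≤ (1 - κ) * d → Le L (√((1 - κ / 2) * d))

/-- LOC2 (short-medium). Localisation, levels `≥ 2`.
Proof. `f' = f/√(N U f)` satisfies `HQ.Eig U l f'`. `LOC_bound` of `Pool/Agent/helper25/HQ/LOC.lean` (import it) with `m = 2`: for `|w| = 2` the mass `∑_{x ∈ U, w ⊆ x} f' x ^ 2` is at most `(2/(kap l)²)²`. Each `x ∈ U` with at least two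
elements contains some `w ∈ U` with two elements: sum over these `w`, at most `|U|` of them. -/
def LOC2_stmt : Prop := ∀ (d : ℕ) (U : Fam d) (l : ℝ) (f : Finset (Fin d) → ℝ) (kap : ℝ), Pf U l f → 0 < kap → 0 < l →
  (∀ i, Le (lk i U) ((1 - kap) * l)) →
  ∑ x ∈ U.filter (fun x => 2 ≤ x.card), f x ^ 2 ≤ 4 * U.card / (kap * l) ^ 4 * N U f

/-- ONE (medium; uses LOC2, `HX.EQ1_stmt`).
Proof. `q = 4 |L|/(kap l)⁴ ≤ 16 C₀/(kap⁴ d) ≤ 1/4` for large `d`. Parity (as in `Pool/Agent/helper97/HX/BASE.lean`, lemma `BASE_par`, which may be imported): the even members carry half of `N = N L f`: `N/2 = 1 + ∑_{even, |x| ≥ 2} f² ≤ 1 + q N` (LOC2), so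
`N ≤ 4`. `s2 L f ≤ √(ee L * ∑_{|x|=2} f²) ≤ √(C₀ d * 4 q) ≤ 8 C₀/kap²`. EQ1: `l² = nu L + 2 s2 ≤ nu L + 16 C₀/kap²`. -/
def ONE_stmt : Prop := ∀ kap C₀ : ℝ, 0 < kap → 1 ≤ C₀ → ∃ (R : ℝ) (d₀ : ℕ), 0 ≤ R ∧ ∀ d ≥ d₀, ∀ (L : Fam d) (l : ℝ)
  (f : Finset (Fin d) → ℝ), Pf L l f → (L.card : ℝ) ≤ C₀ * d → (d : ℝ) / 2 ≤ l ^ 2 → (∀ i, Le (lk i L) ((1 - kap) * l)) →
  l ^ 2 ≤ nu L + R

/-- SHL (short-medium; uses LNK ONE, `HX.MON_stmt`, `HX.EQ1_stmt`).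
Proof. `L = ∅`: clear. Otherwise MON: `Pf L l f`, `Le L l`, `l ≥ 0`. If `l² ≤ (1 - κ/4) d` done. Otherwise `l² ≥ d/2`, `l > 0`; the links `lk i L` are down-sets with at most `|L|` members, LNK: `Le (lk i L) (√((1-κ/2) d))`, and
`√((1-κ/2) d) ≤ (1 - kap) l` with `1 - kap = √((1-κ/2)/(1-κ/4)) < 1`. ONE. -/
def SHL_stmt : Prop := ∀ κ C₀ : ℝ, 0 < κ → κ ≤ 1 / 2 → 1 ≤ C₀ → ∃ (R : ℝ) (d₀ : ℕ), 0 ≤ R ∧ ∀ d ≥ d₀, ∀ L : Fam d, Dn L →
  (L.card : ℝ) ≤ C₀ * d → (∀ i, (nu (lk i L) : ℝ) ≤ (1 - κ) * d) → Le L (√(max (nu L + R) ((1 - κ / 4) * d)))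

/-- DSB (short). Proof. Remove maximal members (of maximal cardinality) one after the other. -/
def DSB_stmt : Prop := ∀ (d : ℕ) (C : Fam d) (n : ℕ), Dn C → n ≤ C.card → ∃ C' ⊆ C, Dn C' ∧ C'.card = n

/-- PRS (short-medium). Proof. `S = {i : {i} ∈ C}`, `|S| ≤ |C|`; `w ⊆ S` for `w ∈ C`. The sets `w ∪ i ∈ U` with `w ∈ C`, `i ∉ S` are different (`w = (w ∪ i) ∩ S`), so `∑_{w ∈ C} (up w U - |S|) ≤ |U|`. -/
def PRS_stmt : Prop := ∀ (d : ℕ) (U C : Fam d), Dn U → Dn C → C ⊆ U → ∑ w ∈ C, up w U ≤ U.card + C.card * C.card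

/-- COR (short-medium; uses DSB PRS).
Proof. `up` is antitone on `U` (`y ⊆ x`, `x + k ∈ U`, `k ∉ x` give `y + k ∈ U`, `k ∉ y`), so `cor K U` is a down-set. If it has at least `K + 2` members, DSB gives a down-set `C'` inside with `K + 2` members, PRS:
`(K+2)(1 - 1/(2(K+2))) d ≤ |U| + (K+2)²`, i.e. `(K + 3/2) d < (K+1) d + (K+2)²`, false for `d ≥ 2 (K+2)²`. If it has at most `K` members `B = cor K U`. If it has `K + 1`, PRS: some `w₀` has `(K+1) up w₀ U ≤ |U| + (K+1)²`; `B = (cor K U).erase w₀`. -/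
def COR_stmt : Prop := ∀ K : ℕ, 1 ≤ K → ∃ d₀ : ℕ, ∀ d ≥ d₀, ∀ U : Fam d, Dn U → U.card < (K + 1) * d →
  Dn (cor K U) ∧ (cor K U).card ≤ K + 1 ∧
  ∃ B ⊆ cor K U, B.card ≤ K ∧ ∀ w ∈ cor K U, w ∉ B → (K + 1) * up w U ≤ U.card + (K + 1) ^ 2

/-- CLC (short-medium). Counts for `Lc`. Proof. `y ↦ y ∪ w` is injective on the `y` disjoint from `S ⊇ w`. Singletons `{i}` of `Lc S w U`: `i ∉ S`, `{i} ∪ w = insert i w ∈ U`. Singletons `{k}` of `lk i (Lc S w U)`: `k ≠ i`, `{i, k}` disjoint from `S`,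
`insert k (insert i w) ∈ U`. -/
def CLC_stmt : Prop := ∀ (d : ℕ) (U : Fam d) (S w : Finset (Fin d)), Dn U → w ⊆ S →
  Dn (Lc S w U) ∧ (Lc S w U).card ≤ U.card ∧ nu (Lc S w U) ≤ up w U ∧
  (∀ i ∈ S, nu (lk i (Lc S w U)) = 0) ∧ ∀ i, i ∉ S → nu (lk i (Lc S w U)) ≤ up (insert i w) U

/-- CLE (short-medium). The form of a cell. Proof. `x ↦ x \ S` is a bijection of `cel S w U` and `Lc S w U` (inverse `y ↦ y ∪ w`); for `x ∈ cel S w U`, `i ∈ x`: `x.erase i ∈ cel S w U` iff `i ∉ S` (`U` is a down-set). So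
`Ef (cel S w U) f = E (Lc S w U) f'`, `N (cel S w U) f = N (Lc S w U) f'` with `f' y = f (y ∪ w)`. -/
def CLE_stmt : Prop := ∀ (d : ℕ) (U : Fam d) (S w : Finset (Fin d)) (ell : ℝ) (f : Finset (Fin d) → ℝ), Dn U → w ⊆ S →
  Le (Lc S w U) ell → Ef (cel S w U) f ≤ ell * N (cel S w U) f

/-- SPL (medium). Cutting `U` into cells.
Proof. `U` is the disjoint union of the cells `cel S w U`, `w ⊆ S` (`w = x ∩ S`). In `E U f = 2 ∑_{x ∈ U} ∑_{i ∈ x} f x f (x.erase i)` the terms with `i ∉ S` stay in the cell; for `i ∈ S`, `x.erase i` is in the cell of `w.erase i`. For `j ∈ w`: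
`∑_{x ∈ cel S w U} f x f (x.erase j) ≤ √(N (cel S w U) f) √(N (cel S (w.erase j) U) f)` by Cauchy-Schwarz (`x ↦ x.erase j` is injective from the cell of `w` into the cell of `w.erase j`). -/
def SPL_stmt : Prop := ∀ (d : ℕ) (U : Fam d) (S : Finset (Fin d)) (f : Finset (Fin d) → ℝ), Dn U →
  N U f = ∑ w ∈ S.powerset, N (cel S w U) f ∧
  E U f ≤ ∑ w ∈ S.powerset, Ef (cel S w U) f +
    2 * ∑ w ∈ S.powerset, ∑ j ∈ w, √(N (cel S w U) f) * √(N (cel S (w.erase j) U) f)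

/-- QFM (medium; uses `HX.EMB_stmt`). A quadratic form on the subsets of `S`.
Proof. Let `w △ j` be `w` with `j` added or removed. `2 ∑_{w ⊆ S} ∑_{j ∈ w} n_w n_{w - j} = ∑_{w ⊆ S} ∑_{j ∈ S} n_w n_{w △ j}`. (b): `n_w n_{w △ j} ≤ (n_w² + n_{w △ j}²)/2`, so the form is at most `|S| ∑ n²`.
(a): `θ = 2K/g ≤ 1/2`, `t_w = θ` for `w ∈ B`, `1/θ` otherwise. For all neighbours `w, w'`: `n_w n_w' ≤ [w, w' ∈ B] n_w n_w' + (t_w n_w² + t_w' n_w'²)/2`. The sum of the first terms is `Ef B n ≤ lam K K * N B n` (EMB with `D = m = K`, `K ≤ 2 ^ K`), the sum of the second ones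
is `|S| ∑ t_w n_w² ≤ K ∑ t_w n_w²`. So the left side is at most `(P + lam K K + θ K) ∑_{w ∈ B} n_w² + (P - g + K/θ) ∑_{w ∉ B} n_w²`, `K/θ = g/2`, `θ K = 2K²/g`; and `lam K K ≥ 0`
(EMB for `W = {∅}`, `f = 1`: `0 ≤ lam K K`). -/
def QFM_stmt : Prop := ∀ (d K : ℕ) (S : Finset (Fin d)) (n ell : Finset (Fin d) → ℝ) (P : ℝ), 1 ≤ K → S.card ≤ K →
  (∀ w, 0 ≤ n w) → (∀ w, w ⊆ S → ell w ≤ P) →
  (∀ (B : Fam d) (g : ℝ), B.card ≤ K → (∀ w ∈ B, w ⊆ S) → (∀ w, w ⊆ S → w ∉ B → ell w ≤ P - g) → 4 * K ≤ g →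
    ∑ w ∈ S.powerset, ell w * n w ^ 2 + 2 * ∑ w ∈ S.powerset, ∑ j ∈ w, n w * n (w.erase j) ≤
      (P + lam K K + 4 * K ^ 2 / g) * ∑ w ∈ S.powerset, n w ^ 2) ∧
  ∑ w ∈ S.powerset, ell w * n w ^ 2 + 2 * ∑ w ∈ S.powerset, ∑ j ∈ w, n w * n (w.erase j) ≤
    (P + K) * ∑ w ∈ S.powerset, n w ^ 2 ∧ 0 ≤ lam K K

/-- CLB (medium; uses LNK SHL COR CLC). The bounds for the cells.
Proof. `κ = 1/(2(K+2))`, `C₀ = K + 1`, `R` from SHL, `c₁ = κ/(4(K+1))`, `R' = R + K + 1`, `t = (K+1) d - |U| ≤ (K+1) d`. `S = {i : {i} ∈ cor K U}`: the members of the core are subsets of `S`, and `|S| ≤ K` (`∅` is in the core if it is not empty). `B` from COR. Let `w ⊆ S`.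
If `w` is not in the core: `nu (Lc S w U) ≤ up w U ≤ (1-κ) d` (if `w ∉ U` then `up w U = 0`, `U` is a down-set), LNK: `√((1-κ/2) d) ≤ √(d - c₁ t + R')`. If `w` is in the core: for `i ∉ S` the set `insert i w` is not in the core (otherwise `{i}` is), so `nu (lk i (Lc S w U)) ≤ (1-κ) d` for all
`i` (CLC), SHL: `ell_w = √(max (up w U + R) ((1-κ/4) d))`, `up w U ≤ d`: `ell_w ≤ √(d + R')`; and if `w ∉ B`, `up w U ≤ d - t/(K+1) + K + 1`, so `ell_w ≤ √(d - c₁ t + R')` (`(1-κ/4) d ≤ d - c₁ t`). -/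
def CLB_stmt : Prop := ∀ K : ℕ, 1 ≤ K → ∃ (R c₁ : ℝ) (d₀ : ℕ), 0 ≤ R ∧ 0 < c₁ ∧ c₁ * (K + 1) ≤ 1 ∧ ∀ d ≥ d₀, ∀ U : Fam d, Dn U →
  U.card < (K + 1) * d → ∃ (S : Finset (Fin d)) (B : Fam d), S.card ≤ K ∧ B.card ≤ K ∧ (∀ w ∈ B, w ⊆ S) ∧
    (∀ w, w ⊆ S → Le (Lc S w U) (√(d + R))) ∧
    ∀ w, w ⊆ S → w ∉ B → Le (Lc S w U) (√(d - c₁ * ((K + 1) * d - U.card) + R))

/-- ASM (medium; uses CLB CLE SPL QFM). The upper bound for down-sets.
Proof. `t = (K+1) d - |U| > 0`, `P = √(d + R)`, `n_w = √(N (cel S w U) f)`. `√(d - c₁ t + R) ≤ P - g`, `g = c₁ t/(2P)`. SPL, CLE: `E U f ≤ ∑ ell_w n_w² + 2 ∑ ∑ n_w n_{w-j}`, `∑ n_w² = N U f`, `ell_w = P` for `w ∈ B`, `P - g` otherwise. Let `d ≥ R`, `d ≥ 1`, so `P ≤ 3√d/2`, `P ≤ √d + R/√d`,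
and `1/√d ≤ (K+1) √d/t`. If `g ≥ 4K`: QFM (a): `E ≤ (P + lam K K + 8 K² P/(c₁ t)) N ≤ (√d + lam K K + C √d/t) N` if `C ≥ R (K+1) + 12 K²/c₁`. If `g < 4 K`: `t < 8 K P/c₁ ≤ 12 K √d/c₁`, so `√d/t ≥ c₁/(12 K)`; QFM (b):
`E ≤ (P + K) N ≤ (√d + R + K) N` and `C √d/t ≥ R + K` if `C ≥ 12 K (R + K)/c₁`. -/
def ASM_stmt : Prop := ∀ K : ℕ, 1 ≤ K → ∃ (C : ℝ) (d₀ : ℕ), 0 < C ∧ ∀ d ≥ d₀, ∀ U : Fam d, Dn U → U.card < (K + 1) * d →
  Le U (√d + lam K K + C * √d / ((K + 1) * d - U.card))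

/-- LBP (medium; uses `HX.TRN_stmt`). The lower bound.
Proof. `D = d - K ≥ 1`. `DC_start` of `Pool/Agent/helper9/HQ/DC.lean` (import it; with `Pool.Agent.helper65.HC.lam_isGreatest K K`) gives a family `A` of `K` subsets of `Fin K` and `g ≥ 0` supported on `A`, `∑ g² = 1`, `lam K K ≤ DC_tot g = E A g` (`DC_tot_eq`). `J ⊆ Fin d` the first `K` elements.
`W` = the sets `x` with `x ∩ J ∈ A` (transported by `Fin.castLE`) and `|x \ J| ≤ 1`: `|W| = K (D + 1) ≤ K d ≤ m`. `f x = g (x ∩ J)` if `x ⊆ J`, `g (x ∩ J)/√D` if `|x \ J| = 1`, 0 otherwise. `N W f = 2`, `Ef W f = DC_tot g (1 + D/D) + 2 * D/√D = 2 (DC_tot g + √D)`. TRN. -/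
def LBP_stmt : Prop := ∀ K d m : ℕ, 1 ≤ K → K < d → K * d ≤ m → m ≤ 2 ^ d → √((d : ℝ) - K) + lam K K ≤ lam d m

/-- FIN (short-medium; uses `HQ.DC_stmt`, ASM, LBP).
Proof. `(K+1) d ≤ 2 ^ d` for large `d`; `Pool.Agent.helper65.HC.lam_isGreatest`: `lam d m = t`, `IsTop U t`, `U.card = m`. DC: a down-set `A`, `A.card = m`, `N A f = 1`, `t ≤ E A f`; ASM. Lower bound: LBP and `√(d - K) ≥ √d - K/√d`. -/
def FIN_stmt : Prop := ∀ K : ℕ, 1 ≤ K → ∃ (C : ℝ) (d₀ : ℕ), 0 < C ∧ ∀ d ≥ d₀, ∀ m : ℕ, K * d ≤ m → m < (K + 1) * d →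
  IsGreatest {t | ∃ U : Finset (V d), U.card = m ∧ IsTop U t} (lam d m) ∧
  lam K K - C / √d ≤ lam d m - √d ∧ lam d m - √d ≤ lam K K + C * √d / ((K + 1) * d - m)

end

end Pool.Agent.helper9.HLR
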