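import Pool.Agent.helper9.HX.Main
import Pool.Agent.helper9.HLR.Spec
import Pool.Agent.helper9.HLR.EEF
import Pool.Agent.helper9.HLR.QFM
import Pool.Agent.helper9.HLR.CLC
import Pool.Agent.helper9.HLR.SPL
import Pool.Agent.helper9.HLR.ONE
import Pool.Agent.helper9.HLR.LNK
import Pool.Agent.helper9.HLR.CLB
import Pool.Agent.helper9.HLR.ASM
import Pool.Agent.helper9.HLR.LBP
import Pool.Agent.helper9.HLR.FIN

/-!
Assembly: the second term in the linear range.
-/

namespace Pool.Agent.helper9.HLR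

theorem main : FIN_stmt := by
  have hTRN : HX.TRN_stmt := HX.TRN
  have hEMB : HX.EMB_stmt := HX.EMB hTRN
  have hEQ1 : HX.EQ1_stmt := HX.EQ1
  have hLNK : LNK_stmt := LNK EEF hEMB HX.hqUB HQ.CC
  have hONE : ONE_stmt := ONE LOC2 hEQ1
  have hSHL : SHL_stmt := SHL hLNK hONE HX.MON hEQ1
  have hCOR : COR_stmt := COR DSB PRS
  have hCLB : CLB_stmt := CLB hLNK hSHL hCOR CLC
  have hASM : ASM_stmt := ASM hCLB CLE SPL (QFM hEMB)
  exact FIN HQ.DC hASM (LBP hTRN)

end Pool.Agent.helper9.HLR
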